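import Pool.Agent.SZC.Defs
import Pool.Agent.SZA.St

/-!
# SZC: the near-full case in rank at least three (MP_ec93d3_co), classification

Architect helper97.  Aim (`St_Fin`): if some `G[p] = {x | p x = 0}` has more than `p^2` elements, then `NF3 G`: every near-full generating set `A` of nonzero elements with aperiodic
set of sums has at least as many sums as the value `valr` of some subgroup `H ≠ ⊤`, except for six elements of `Z_2^2 × Z_4` with 15 sums.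

Definitions: `NFS`, `Dn`, `NF3` (SZC/Defs.lean), `FA`, `PP`, `Cov`, `Gro` (SZA/Defs.lean), `crk`, `FS`, `lam` (Helper64.Rho), `valr` (SNR/UpR.lean), `Aper`, `Cap`, `gen`, `cf`, `jj` (SDG.St), `outs`
(MDR.St), `AE` (SSE.St), `l0` (SNW/Cd.lean), `M1P` (SNW/W2.lean), `SSX.Clp`, `SSX.Spl`.
Every `St_X` is a statement, its proof is in the docstring.  A module `Pool/Agent/SZC/X.lean` proves `thm_X : St_A → ... → St_X` with exactly the hypotheses listed as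
`from A, ...` in the docstring, in this order (`SZA.FinA` means `Pool.Agent.SZA.St_FinA`).  ALL OLDER FACTS ARE THEOREMS: `import Pool.Agent.SSX.Main` and use `SSX.PAG_all` (the lower bound
`cf 2 t`), `SSX.all_X`, `SSE.all_X`, `SSC.mdr_X`, `SDG.all_X`; `SZA.all_GRB` (Pool/Agent/SZA/GRB.lean) is the growth theorem; `SNW.exp_quot`, `SNW.W2_upper`, `SNW.cap_id`, `SNW.gen_id`, `EXT.lower`, `SNS.no_81a`.
Notation in the docstrings: `n = |G|`, `t = |A|`, `T = FS A id`, `e` = exponent of `G`, `J = jj t = (t+1)/2`, `P = PP G = {x + x}`, `cf 2 t = 1 + (t+1)^2/4` (SDG.Nm1 (3)), `G[p] = {x | p x = 0}`.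
`cf g 1 = 2`, and `cf g y = 1 + y` for `y ≤ g` (SNW.W2_lin).
No double quotes and do not use the tactic `convert`.
-/

set_option autoImplicit false

noncomputable section

open Finset Pool.Agent.Helper64.Rho Pool.Agent.SDG Pool.Agent.MDR Pool.Agent.SSC Pool.Agent.SSE Pool.Agent.SZA
open scoped Classical Pointwise

namespace Pool.Agent.SZC

/-! ## Values -/

/-- **Kq** (1.2 h).  Cyclic quotients of order `q`, `q` a divisor of the exponent.
Proof.  SNW.exp_quot: `H0` with `G / H0` cyclic, and its order is `e` (`|H0| = l0 G = n / e`).  `q ∣ e`: the cyclic group `G / H0` has a subgroup of index `q` (the multiples of `q`); `H` = its preimage: `G / H` is cyclic of order `q ≥ 2`.  `crk H = 1`: `crk_le` with one element, and `crk H = 0` only for `H = ⊤`.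
So `valr m H = |H| 2^0 cf (2 |H|) (max 1 (m + 2 - |H| - 1))`. -/
def St_Kq : Prop :=
  ∀ (G : Type) [AddCommGroup G] [Finite G] (q : ℕ), 2 ≤ q → q ∣ AddMonoid.exponent G →
    ∃ H : AddSubgroup G, H ≠ ⊤ ∧ Nat.card G = q * Nat.card H ∧
      ∀ m : ℕ, Pool.Agent.SNR.valr m H = Nat.card H * cf (2 * Nat.card H) (max 1 (m + 1 - Nat.card H))

/-- **K9** (1.2 h).  A quotient `Z_3^2`.
Proof.  `3 G = {3 x}` has index `|G[3]|` (kernel and range of `x ↦ 3 x`), and `G / 3 G` is a vector space over `ZMod 3` of dimension at least 2; it has a subspace of codimension 2; `H` = its preimage, `G / H` has 9 elements and is killed by 3, so it is not cyclic: `crk H = 2` (two elements generate `G / H` modulo `H`: `crk_le`; `crk H ≤ 1` would make `G / H` cyclic).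
`valr m H = |H| 2 cf (2 |H|) (max 1 (m + 2 - |H| - 2))`; for `m ≤ |H| + 1` this is `2 |H| cf (2 |H|) 1 = 4 |H|`. -/
def St_K9 : Prop :=
  ∀ (G : Type) [AddCommGroup G] [Finite G], 9 ∣ Nat.card {x : G // (3 : ℕ) • x = 0} →
    ∃ H : AddSubgroup G, H ≠ ⊤ ∧ Nat.card G = 9 * Nat.card H ∧ ∀ m : ℕ, m ≤ Nat.card H + 1 → Pool.Agent.SNR.valr m H = 4 * Nat.card H

/-- **Nf0** (0.7 h, uses SSX.PAG_all).  Numbers of a near-full set.
Proof.  (1) PAG_all (`SNW.cap_id`).  (2) `T ≠ G` since `T` is aperiodic and `n ≥ 2`.  (3) `cf 2 t ≥ J (J-1) + 1`, so `n ≤ |T| + J (J-1) ≤ 2 |T| - 1`.  (4) `cf 2 t = 1 + (t+1)^2/4 ≤ |T|`, so `(t+1)^2 ≤ 4 (|T| - 1) + 3`.  (5) `A = ∅` would give `⊥ = ⊤`.  (6) SDG.Ba1 (5): a member with `a + a = 0` is a period. -/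
def St_Nf0 : Prop :=
  ∀ (G : Type) [AddCommGroup G] [Finite G] (A : Finset G), 2 ≤ Nat.card G → NFS A →
    cf 2 A.card ≤ (FS A id).card ∧ (FS A id).card + 1 ≤ Nat.card G ∧ Nat.card G + 1 ≤ 2 * (FS A id).card ∧
    (A.card + 1) ^ 2 + 1 ≤ 4 * (FS A id).card ∧ 1 ≤ A.card ∧ ∀ a ∈ A, a + a ≠ 0

/-- **Kd** (1.5 h, from Kq, K9, Nf0).  When some value is small.
Proof.  (1) Kq: `|H| = n / q`.  If `t ≤ |H|`: `valr t H = 2 |H| = 2 n / q ≤ n / 2 ≤ |T|` (Nf0 (3)).  Otherwise `t ≥ |H| + 1`.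
(2) from (1): `(n + 2 q)^2 ≤ q^2 (t+1)^2 ≤ q^2 (4 |T| - 1) < 4 q^2 n ≤ n^2`: impossible.
(3) Kq with `q = 3`: `t ≤ |H|`: `valr t H = 2 |H| = 2 n / 3`: `Dn` or `3 |T| < 2 n`.  Otherwise `n + 3 ≤ 3 t`, `(n + 6)^2 ≤ 9 (t+1)^2 ≤ 9 (4 n - 5)`: false for `n ≥ 21`.
(4) (1) with `q = 6`, (3): `(n + 12)^2 ≤ 36 (t+1)^2 ≤ 36 (4 |T| - 1)` and `3 |T| ≤ 2 n - 1`: `(n + 12)^2 ≤ 96 n - 84`: false for `n ≥ 69`.
(5) K9: `t ≤ |H| + 1`: `valr t H = 4 |H| = 4 n / 9 < |T|`.  Otherwise `9 t ≥ n + 18`. -/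
def St_Kd : Prop :=
  ∀ (G : Type) [AddCommGroup G] [Finite G] (A : Finset G), 2 ≤ Nat.card G → NFS A →
    (∀ q : ℕ, 4 ≤ q → q ∣ AddMonoid.exponent G → Dn A ∨ Nat.card G + q ≤ q * A.card) ∧
    (∀ q : ℕ, 4 ≤ q → q ∣ AddMonoid.exponent G → 4 * q ^ 2 ≤ Nat.card G → Dn A) ∧
    (3 ∣ AddMonoid.exponent G → 21 ≤ Nat.card G → Dn A ∨ 3 * (FS A id).card + 1 ≤ 2 * Nat.card G) ∧
    (6 ∣ AddMonoid.exponent G → 72 ≤ Nat.card G → Dn A) ∧
    (9 ∣ Nat.card {x : G // (3 : ℕ) • x = 0} → Dn A ∨ Nat.card G + 18 ≤ 9 * A.card)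

/-! ## Small groups -/

/-- **Ix2** (0.5 h).  Proof.  Kernel and range of `x ↦ 2 x`. -/
def St_Ix2 : Prop :=
  ∀ (G : Type) [AddCommGroup G] [Finite G], (PP G).index = Nat.card {x : G // (2 : ℕ) • x = 0}

/-- **Tv** (0.5 h).  `X` has at most one element in every coset of `K`, `y + y ∈ K`, `y + y ≠ 0`.
Proof.  If `x ∈ X` and `x + y ∈ X` then `x + y + y ∈ x + K` is different from `x`, so it is not in `X`.  So `x ↦ x + y` maps the elements `x ∈ X` with `x + y ∈ X` injectively to the elements `z ∈ X` with `z + y ∉ X`, and `lam X y` is the number of the latter. -/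
def St_Tv : Prop :=
  ∀ (G : Type) [AddCommGroup G] (X : Finset G) (K : AddSubgroup G) (y : G), (∀ x ∈ X, ∀ x' ∈ X, x - x' ∈ K → x = x') → y + y ∈ K → y + y ≠ 0 →
    X.card ≤ 2 * lam X y

/-- **BsG** (1.2 h; compare Pool/Agent/SZA/Bs.lean).  A basis modulo `P`.
Proof.  `G / P` is killed by 2: a vector space over `ZMod 2` with `2^r = P.index` elements, spanned by the classes of the members; `b` = one member for each vector of a basis consisting of classes of members.  The `2^|b|` subsets of `b` have sums in different classes, and every class is obtained. -/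
def St_BsG : Prop :=
  ∀ (G ι : Type) [AddCommGroup G] [Finite G] (u : Finset ι) (f : ι → G), gen u f = ⊤ →
    ∃ b : Finset ι, b ⊆ u ∧ 2 ^ b.card = (PP G).index ∧ Cov b f ∧ (FS b f).card = 2 ^ b.card ∧
      ∀ x ∈ FS b f, ∀ x' ∈ FS b f, x - x' ∈ PP G → x = x'

/-- **W4** (0.6 h, from Tv, BsG).  One member more than a basis.
Proof.  `b` from BsG (`|b| = r`), `y ∈ u \ b`, `w = insert y b`: `|FS w f| = |FS b f| + lam (FS b f) (f y)` and `2 lam ≥ 2^r` (Tv with `K = P`, `f y + f y ∈ P`). -/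
def St_W4 : Prop :=
  ∀ (G ι : Type) [AddCommGroup G] [Finite G] (r : ℕ) (u : Finset ι) (f : ι → G), (PP G).index = 2 ^ r → gen u f = ⊤ → (∀ i ∈ u, f i + f i ≠ 0) →
    r + 1 ≤ u.card → ∃ w : Finset ι, w ⊆ u ∧ w.card = r + 1 ∧ 3 * 2 ^ r ≤ 2 * (FS w f).card

/-- **S10** (0.6 h, from W4; uses SSX.PAG_all, SDG.all_Kn).  Proof.  W4 with `r = 4`: `w ⊆ A` with 5 elements, `|FS w id| ≥ 24`; the other 5 elements have at least `cf 2 5 = 10` sums (PAG_all, subfamily of an aperiodic family); SDG.Kn (1), SDG.Ba1 (1): `|T| + 1 ≥ 34`. -/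
def St_S10 : Prop :=
  ∀ (G : Type) [AddCommGroup G] [Finite G] (A : Finset G), (PP G).index = 16 → (0 : G) ∉ A → AddSubgroup.closure (A : Set G) = ⊤ → Aper (FS A id) →
    A.card = 10 → 33 ≤ (FS A id).card

/-- **S16** (1.5 h, from Ix2, Tv, W4; uses SDG.all_Kn, SDG.all_Ba1).  `n = 16`, `|G[2]| = 8` (`Z_2^2 × Z_4`).
Proof.  `P.index = 8`, `P = {0, ω}`, no `a ∈ A` is killed by 2 (SDG.Ba1 (5)), so `2 a = ω` for `a ∈ A`.  (1) `t = 5`: W4 with `r = 3`: `|T| ≥ 12`.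
(2) `t = 6`: the set `O = {x | 2 x = ω}` has 8 elements (a coset of `G[2]`), it consists of the 4 classes `{x, x + ω} = {x, -x}`, `A ⊆ O` has 6 elements, so at least two classes `{x1, -x1}`, `{x2, -x2}` are contained in `A`.  `R = {-x1, -x2}` has the four different sums `0, -x1, -x2, -x1-x2`.  `W = A \ R` contains `x1, x2` and two elements `u, v` which are not `± x1`, `± x2`.
The 8 sums of `{x1, x2, u}` are in different classes modulo `P`: a nonempty sum or a difference of two sums is, modulo `P`, one of `x1, x2, u, x1+x2, x1+u, x2+u, x1+x2+u`; the ones with an odd number of terms are not killed by 2 (`2 (..) = ω`), and `x1 + x2 ∈ {0, ω}` would mean `x2 = ± x1`.  Tv: adding `v` gives at least 12 sums of `W`.  SDG.Kn (1): `|T| + 1 ≥ 12 + 4`. -/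
def St_S16 : Prop :=
  ∀ (G : Type) [AddCommGroup G] [Finite G] (A : Finset G), Nat.card G = 16 → Nat.card {x : G // (2 : ℕ) • x = 0} = 8 → (0 : G) ∉ A →
    AddSubgroup.closure (A : Set G) = ⊤ → Aper (FS A id) → (A.card = 5 → 12 ≤ (FS A id).card) ∧ (A.card = 6 → 15 ≤ (FS A id).card)

/-- **ClG** (1 h; compare Pool/Agent/SZA/Clc.lean).  The number of coloops, any finite `G`, `P.index = 2^a`.
Proof.  For `A ⊆ Q` let `σ_A = ∑_{i ∈ A} f i`.  The classes of `σ_A` modulo `P` are different: let `x ∈ A`, `x ∉ B`, `M_x` from `Clp q f x`: `σ_A - σ_B` is `f x` plus an element of `M_x`, so it is not in `M_x ⊇ P` (index 2).  `G / P` has order `2^a`: `2^|Q| ≤ 2^a`.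
If all members of `q` are in `M`, `M.index = 2`: the `σ_A` are in `M`, and `M` contains `2^(a-1)` cosets of `P ≤ M` (`a ≥ 1`). -/
def St_ClG : Prop :=
  ∀ (G ι : Type) [AddCommGroup G] [Finite G] (a : ℕ) (q Q : Finset ι) (f : ι → G), (PP G).index = 2 ^ a → Q ⊆ q → (∀ x ∈ Q, Pool.Agent.SSX.Clp q f x) →
    Q.card ≤ a ∧ ∀ M : AddSubgroup G, M.index = 2 → (∀ i ∈ q, f i ∈ M) → Q.card + 1 ≤ a

/-- **HfG** (1.8 h, from ClG; copy Pool/Agent/SZA/P1A.lean and Pool/Agent/SZA/Hf.lean (or SSX/P1X.lean) with `P.index = 2^a` instead of `FA a p G`).  Halves that are not contained in a subgroup of index 2.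
Proof.  (a) Exchange: a part `q` contained in `M`, `M.index = 2`, the other part is `r`.  All members of `outs s f M` (at least `a + 1`) are in `r`.  A partner `j ∈ r` (`f j = ± f x`) of `x ∈ q` is in `r ∩ M`, different `x` have different partners: at most `|r| - (a + 1) ≤ |q| - a` members of `q` have a partner; at most `a - 1` members of `q` are coloops (ClG): there is
`x ∈ q` without partner, not a coloop.  `r` has at least `a + 1` members outside `M`, at most `a` of them are coloops of `r`: `y`, it has no partner (`q ⊆ M`).  (b) SSX.all_SwX (1) gives a splitting, (2) the exchange; induction on the number of subgroups of index 2 containing one of the parts, as in SSX/P1X.lean.  `AE`: no member is killed by 2 (SDG.Ba1 (5)). -/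
def St_HfG : Prop :=
  ∀ (G ι : Type) [AddCommGroup G] [Finite G] (a : ℕ) (s : Finset ι) (f : ι → G), (PP G).index = 2 ^ a → (∀ i ∈ s, f i ≠ 0) → Cap 2 s f →
    Aper (FS s f) → (∀ M' : AddSubgroup G, M'.index = 2 → a + 1 ≤ (outs s f M').card) →
      ∃ s1 s2 : Finset ι, Disjoint s1 s2 ∧ s1 ∪ s2 = s ∧ AE s1 f ∧ AE s2 f ∧ s1.card = (s.card + 1) / 2 ∧ s2.card = s.card / 2 ∧
        ∀ M : AddSubgroup G, M.index = 2 → (∃ i ∈ s1, f i ∉ M) ∧ ∃ i ∈ s2, f i ∉ M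

/-- **X4** (1 h, uses SSE.all_B3E, SDG.all_Ba1).  Four members, `8 x = 0` for all `x`: at least nine sums.
Proof.  `u = insert i v`, `|v| = 3`, `X'' = FS v f`, `|X''| ≥ 7` (B3E), `X = FS u f` aperiodic, `d = f i`, its order `o` is 4 or 8 (`AE`, `8 d = 0`).  `|X''| + lam X d ≤ |X|` (SDG.Ba1 (3)) and `lam X d ≥ 1` (`d ≠ 0` is not a period).  Suppose `|X| ≤ 8`: `|X| = 8` and `lam X d = 1`: let `x0` be the only `x ∈ X` with `x + d ∉ X`.
Every coset of `⟨d⟩` that meets `X` and does not contain `x0` is contained in `X`; the coset `C` of `x0` meets `X` and is not contained in `X`: `|X| = o c + |X ∩ C|`, `1 ≤ |X ∩ C| ≤ o - 1`, so `o` does not divide `|X| = 8`: contradiction. -/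
def St_X4 : Prop :=
  ∀ (G ι : Type) [AddCommGroup G] [Finite G] (u : Finset ι) (f : ι → G), (∀ x : G, (8 : ℕ) • x = 0) → AE u f → Aper (FS u f) → u.card = 4 →
    9 ≤ (FS u f).card

/-- **S32** (2 h, from Ix2, W4, HfG, X4; uses SZA.all_GRB, SSX.all_LcW, SSC.mdr_Av0, SSE.all_SyE, SSX.PAG_all, SDG.all_Kn, SDG.all_Ba1).  `n = 32`, `|G[2]| = 8` (`Z_2^2 × Z_8`, `Z_2 × Z_4^2`), `t = 10`.
Proof.  Suppose `|T| ≤ 31`.  `P.index = 8`, `|P| = 4`.  `8 x = 0` for all `x`: an element of order at least 16 would generate `C` with `|C ⊓ G[2]| = 2`, `|C + G[2]| ≥ 16 * 8 / 2 > 32`.  At least 4 members outside every `M` of index 2: as SZA.Wb: `e = |outs|`, `|T| ≥ 2 cf 2 (10 - e)` (PAG_all), `2 cf 2 7 = 34`.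
HfG (`a = 3`): `s1, s2` with 5 members; a subgroup `≠ ⊤` of the 2-group `G` is contained in one of index 2, so `gen s_j = ⊤`.  `|X_1| + |X_2| ≤ |T| + 1 ≤ 32` (SDG.Kn): let `|X_1| ≤ 16` (or exchange the parts).  `i ∈ s1`: `gen (s1.erase i) f = ⊤`: otherwise `|X_1| = 2 |FS (s1.erase i) f| ≥ 18` (SDG.Ba1 (4), (6), X4).
W4 (`r = 3`) for `s1.erase i` (4 members, so `w` is everything): `|FS (s1.erase i) f| ≥ 12`, so `lam X_1 (f i) ≤ |X_1| - 12 =: j` (SDG.Ba1 (3)), `0 ≤ j ≤ 4`, `lam X_1 y ≤ j` on `D = sym s1 f` (SyE), `|D| = 11`.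
GRB for `s1`: not cyclic; `DCX`: the order of `K` divides 32 and `|K| ≤ 5` gives `|K| ≤ 4`; `5 * 4 + 2 ≤ 32`.  First alternative: `K` killed by 2: LcW: `5 = a |K|` with `a ≥ 1`, `|K|` divides 32, `K ≠ ⊥`: impossible; `K` not killed by 2: `|K| ≤ 4`, so `K` is cyclic of order 4 (order 2 is killed by 2, order 3 does not divide 32), generated by `k`, and `APK` gives `d` with `G = ⟨d⟩ + K`:
`G = ⟨d, k⟩`, so `G / P` has at most 4 elements: contradiction with `P.index = 8`.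
Second: `Gro 5 D`: `5 ≠ 3 κ`; for `i = 2`: `32 ≤ |2 D| + τ`, `τ ≤ 4`, or `24 ≤ |2 D| + 1`, or `22 ≤ |2 D|`: so `|2 D| ≥ 22`, `|2 D| + |D| ≥ 33`: `3 D = G`.  Av0 with `k = 3` (`3 j ≤ |X_1| = 12 + j`): `j (1 + 11 + 22) + (12 - 2 j) 32 ≤ (12 + j)^2`: false for `j = 0, ..., 4` (`j = 4`: `264 > 256`). -/
def St_S32 : Prop :=
  ∀ (G : Type) [AddCommGroup G] [Finite G] (A : Finset G), Nat.card G = 32 → Nat.card {x : G // (2 : ℕ) • x = 0} = 8 → (0 : G) ∉ A →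
    AddSubgroup.closure (A : Set G) = ⊤ → Aper (FS A id) → A.card = 10 → (FS A id).card ≠ 31

/-! ## The cases -/

/-- **C5** (0.5 h, from Kd).  Proof.  `p ≥ 5`, `p^3` divides `|G[p]|`: `p ∣ e`, `n ≥ p^3 ≥ 5 p^2`: Kd (2) with `q = p`. -/
def St_C5 : Prop :=
  ∀ (G : Type) [AddCommGroup G] [Finite G] (p : ℕ) (A : Finset G), p.Prime → 5 ≤ p → p ^ 3 ∣ Nat.card {x : G // p • x = 0} → NFS A → Dn A

/-- **C3** (1.8 h, from Kq, K9, Nf0, Kd; uses EXT.lower, SNS.no_81a, SSX.PAG_all).  `27` divides `|G[3]|`.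
Proof.  `n = 27 k`, `3 ∣ e`.  Kd (3): `3 |T| < 2 n` (otherwise `Dn`).  Kd (5): `n + 18 ≤ 9 t`.  With `(t+1)^2 ≤ 4 |T| - 1`, `3 |T| ≤ 2 n - 1`: `(n + 27)^2 ≤ 81 (4 |T| - 1) ≤ 108 (2 n - 1) - 81`, so `n ≤ 156`: `n ∈ {27, 54, 81, 108, 135}`.
`n = 108`: `6 ∣ e` (2 and 3 divide `n`), Kd (4).  `n = 135`: `5 ∣ e`, Kd (2).  `n = 27`: `|G[3]| = 27`, `3 x = 0` for all `x`; `|T| ≤ 17`, `5 ≤ t ≤ 7`; `t ≤ 6`: `27 ≤ |T| + J (J-1) ≤ 17 + 6` false; `t = 7`: EXT.lower (`k = 3`, `j = 2`, `tau 2 = 3`): `|T| ≥ 18`: contradiction.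
`n = 54`: `|T| ≤ 35`, `8 ≤ t ≤ 10`; `6 ∣ e`, Kd (1) with `q = 6`: `60 ≤ 6 t`: `t = 10`; `54 ≤ |T| + 20`; Kq with `q = 6`: `|H| = 9`, `valr 10 H = 9 cf 18 2 = 27 ≤ |T|`.
`n = 81`: `|T| ≤ 53`, `11 ≤ t ≤ 13`.  If `3 x = 0` for all `x`: EXT.lower (`k = 4`, `j = 3`, `tau 3 = 7`): `|T| ≥ 54`: contradiction.  Otherwise `9 ∣ e` (`n` is a power of 3).  `t = 11, 12`: `J = 6`, `|T| ≥ 51`; Kq with `q = 9`: `|H| = 9`, `valr t H = 9 cf 18 (t - 8) = 9 (t - 7) ≤ 45`: `Dn`.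
`t = 13`: SNS.no_81a; `l0 G ≥ 9`: `e ≤ 9` because an element of order 27 would generate `C` with `|C ⊓ G[3]| = 3`, `|C + G[3]| ≥ 27 * 27 / 3 > 81`. -/
def St_C3 : Prop :=
  ∀ (G : Type) [AddCommGroup G] [Finite G] (A : Finset G), Pool.Agent.SNW.M1P G (Pool.Agent.SNW.l0 G - 1) → 27 ∣ Nat.card {x : G // (3 : ℕ) • x = 0} → NFS A → Dn A

/-- **C2a** (1.5 h, from Kq, Nf0, Kd, Ix2, S10, S16, S32).  `8` divides `|G[2]|`, `4 ∣ e`.
Proof.  Kd (1), (2) with `q = 4`: `n < 64` and `n + 4 ≤ 4 t` (otherwise `Dn`).  `(n + 8)^2 ≤ 16 (t+1)^2 ≤ 16 (4 |T| - 1) ≤ 16 (4 n - 5)`, so `n ≤ 44`.  `16 ∣ n`: the 2-part of `n` is more than `|G[2]|` (an element of order 4 is in the Sylow 2-subgroup, not in `G[2]`).  So `n = 16` or `n = 32`.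
`n = 16`: `|G[2]| = 8`; `e = 4` (an element of order 8 would generate `C`, `|C + G[2]| ≥ 8 * 8 / 2 = 32`).  `t ≥ 5`, `(t+1)^2 ≤ 4 * 15 - 1`: `t ≤ 6`.  `t = 5`: S16: `|T| ≥ 12`, Kq with `q = 4`: `|H| = 4`, `valr 5 H = 4 cf 8 2 = 12`.  `t = 6`: S16: `|T| ≥ 15`, so `|T| = 15`: the exception.
`n = 32`: `t ≥ 9`, `(t+1)^2 ≤ 4 * 31 - 1`: `t ≤ 10`.  `t = 9`: Kq with `q = 4`: `|H| = 8`, `valr 9 H = 8 cf 16 2 = 24 ≤ 26 = cf 2 9 ≤ |T|`.  `t = 10`: `31 = cf 2 10 ≤ |T| ≤ 31`; `|G[2]| ∈ {8, 16}`: S32, S10 (Ix2): contradiction. -/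
def St_C2a : Prop :=
  ∀ (G : Type) [AddCommGroup G] [Finite G] (A : Finset G), 8 ∣ Nat.card {x : G // (2 : ℕ) • x = 0} → 4 ∣ AddMonoid.exponent G → NFS A →
    Dn A ∨ (Nat.card G = 16 ∧ AddMonoid.exponent G = 4 ∧ A.card = 6 ∧ (FS A id).card = 15)

/-- **C2b** (1 h, from Kq, Nf0, Kd, Ix2, S10).  `8` divides `|G[2]|`, `4` does not divide `e`, `3 ∣ e`.
Proof.  `6 ∣ e`, `24 ∣ n`, Kd (4): `n < 72`: `n = 24` or `n = 48`.  Kd (3): `3 |T| < 2 n`.  `n = 24`: `|T| ≤ 15`, `(t+1)^2 ≤ 59`, `t ≤ 6`, `J ≤ 3`: `24 ≤ 15 + 6` false.  `n = 48`: `|T| ≤ 31`, `t ≤ 10`; Kd (1) with `q = 6`: `54 ≤ 6 t`: `t ≥ 9`.  `t = 9`: Kq with `q = 6`: `|H| = 8`, `valr 9 H = 24 ≤ 26 ≤ |T|`.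
`t = 10`: `|G[2]| = 16` (the Sylow 2-subgroup has order 16 and is killed by 2 since `4` does not divide `e`), S10 (Ix2): `|T| ≥ 33`: contradiction. -/
def St_C2b : Prop :=
  ∀ (G : Type) [AddCommGroup G] [Finite G] (A : Finset G), 8 ∣ Nat.card {x : G // (2 : ℕ) • x = 0} → ¬ 4 ∣ AddMonoid.exponent G → 3 ∣ AddMonoid.exponent G → NFS A →
    Dn A

/-- **C2c** (1.8 h, from Kq, Nf0, Kd, SZA.FinA; uses SNW.W2_upper).  `8` divides `|G[2]|`, `4` and `3` do not divide `e`.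
Proof.  `2 ∣ e`, `e ≠ 2` (`A` has an element `a`, `a + a ≠ 0`, Nf0), so `e` has an odd prime divisor; `q` = the least odd prime divisor of `n`, `q ∣ e`, `q ≥ 5`.  Kd (2): `n < 4 q^2` (otherwise `Dn`).  `n = 2^a N1`, `N1` odd, all prime factors of `N1` are `≥ q`, `a ≥ 3`: `N1 < q^2`, so `N1 = q`.  `(2 q) x = 0` for all `x`: `e ∣ 2 q` (`e ∣ 2^a q`, `4` does not divide `e`).  So `FA a q G`, `2^a q < 4 q^2`: `2^(a-1) < 2 q`.
Kd (1) for `q`: `2^a q + q ≤ q t`: `t ≥ 2^a + 1` (otherwise `Dn`).  `a = 3`, `t = 9`: Kq for `q`: `|H| = 8`, `valr 9 H = 8 cf 16 2 = 24 ≤ 26 = cf 2 9 ≤ |T|`.  Otherwise `t ≥ 10`: FinA (`SNW.cap_id`, `SNW.gen_id`): `cf 2 t + h ≤ |T| + 1`, `h = 2^(a-1)`.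
Kq for `2 q`: `|H| = h`, `valr t H = h cf (2 h) (t + 1 - h)`, and W2_upper (with `h = 1`, `l = h`): `h cf (2 h) (t + 1 - h) + 1 ≤ cf 2 t + h`. -/
def St_C2c : Prop :=
  ∀ (G : Type) [AddCommGroup G] [Finite G] (A : Finset G), 8 ∣ Nat.card {x : G // (2 : ℕ) • x = 0} → ¬ 4 ∣ AddMonoid.exponent G → ¬ 3 ∣ AddMonoid.exponent G → NFS A →
    Dn A

/-- **Fin** (0.7 h, from C5, C3, C2a, C2b, C2c).  The near-full statement.
Proof.  There is a prime `p` with `|G[p]| > p^2`; `|G[p]|` is a power of `p` (every element is killed by `p`), so `p^3` divides it.  `p = 2, 3` or `p ≥ 5`. -/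
def St_Fin : Prop :=
  ∀ (G : Type) [AddCommGroup G] [Finite G], ¬ Pool.Agent.SSF.R2 G → Pool.Agent.SNW.M1P G (Pool.Agent.SNW.l0 G - 1) → NF3 G

end Pool.Agent.SZC
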