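import Pool.Agent.SZC.All
import Pool.Agent.SZA.All

/-!
# SZC, main theorem (helper97): the near-full statement in rank at least three
-/

set_option autoImplicit false

noncomputable section

open Finset Pool.Agent.Helper64.Rho Pool.Agent.SDG
open scoped Classical Pointwise

namespace Pool.Agent.SZC

/-- the near-full statement `St_Fin`, without hypotheses -/
theorem all_Fin : St_Fin := fin_of Pool.Agent.SZA.all_FinA

end Pool.Agent.SZC
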