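import Pool.Agent.SZA.Defs
import Pool.Agent.SNR.UpR

/-!
# SZC: the near-full case in rank at least three (MP_ec93d3_co), classification.  Architect helper97.
-/

set_option autoImplicit false

noncomputable section

open Finset Pool.Agent.Helper64.Rho Pool.Agent.SDG
open scoped Classical Pointwise

namespace Pool.Agent.SZC

/-- a generating set of nonzero elements with aperiodic set of sums, near-full -/
def NFS {G : Type} [AddCommGroup G] [Finite G] (A : Finset G) : Prop :=
  (0 : G) ∉ A ∧ AddSubgroup.closure (A : Set G) = ⊤ ∧ Aper (FS A id) ∧ Nat.card G ≤ (FS A id).card + jj A.card * (jj A.card - 1)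

/-- the number of sums is at least the value of some subgroup -/
def Dn {G : Type} [AddCommGroup G] [Finite G] (A : Finset G) : Prop :=
  ∃ H : AddSubgroup G, H ≠ ⊤ ∧ Pool.Agent.SNR.valr A.card H ≤ (FS A id).card

/-- the near-full statement -/
def NF3 (G : Type) [AddCommGroup G] [Finite G] : Prop :=
  ∀ A : Finset G, NFS A → Dn A ∨ (Nat.card G = 16 ∧ AddMonoid.exponent G = 4 ∧ A.card = 6 ∧ (FS A id).card = 15)

end Pool.Agent.SZC
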