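import Pool.Agent.SZC.St

/-!
# SZC, module BsG: a basis modulo `P`
-/

set_option autoImplicit false

noncomputable section

open Finset Pool.Agent.Helper64.Rho Pool.Agent.SDG Pool.Agent.SZA
open scoped Classical Pointwise

namespace Pool.Agent.SZC

/-- the sum of the classes -/
private def BsG_S {G ι : Type} [AddCommGroup G] (f : ι → G) (c : Finset ι) : G ⧸ PP G :=
  ∑ i ∈ c, (QuotientAddGroup.mk (f i) : G ⧸ PP G)

private theorem BsG_mk {G ι : Type} [AddCommGroup G] (f : ι → G) (c : Finset ι) :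
    (QuotientAddGroup.mk (∑ i ∈ c, f i) : G ⧸ PP G) = BsG_S f c := by
  unfold BsG_S
  exact map_sum (QuotientAddGroup.mk' (PP G)) f c

private theorem BsG_two {G : Type} [AddCommGroup G] (x : G ⧸ PP G) : x + x = 0 := by
  obtain ⟨y, rfl⟩ := QuotientAddGroup.mk_surjective x
  rw [← QuotientAddGroup.mk_add]
  refine (QuotientAddGroup.eq_zero_iff _).2 ⟨y, ?_⟩
  show (2 : ℕ) • y = y + y
  exact two_nsmul y

private theorem BsG_symm {G ι : Type} [AddCommGroup G] (f : ι → G) (c d : Finset ι) :
    BsG_S f (symmDiff c d) = BsG_S f c + BsG_S f d := by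
  have h1 : BsG_S f c = BsG_S f (c \ d) + BsG_S f (c ∩ d) := by
    unfold BsG_S
    rw [← sum_union (disjoint_sdiff_inter c d), sdiff_union_inter]
  have h2 : BsG_S f d = BsG_S f (d \ c) + BsG_S f (c ∩ d) := by
    unfold BsG_S
    rw [inter_comm c d, ← sum_union (disjoint_sdiff_inter d c), sdiff_union_inter]
  have h3 : BsG_S f (symmDiff c d) = BsG_S f (c \ d) + BsG_S f (d \ c) := by
    unfold BsG_S
    rw [← sum_union (disjoint_sdiff_sdiff)]
    rfl
  rw [h1, h2, h3]
  have h4 := BsG_two (BsG_S f (c ∩ d))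
  calc BsG_S f (c \ d) + BsG_S f (d \ c) =
      BsG_S f (c \ d) + BsG_S f (d \ c) + (BsG_S f (c ∩ d) + BsG_S f (c ∩ d)) := by
        rw [h4, add_zero]
    _ = _ := by abel

theorem thm_BsG : St_BsG := by
  intro G ι _ _ u f hgen
  -- independent subsets
  have hne : (u.powerset.filter fun b => ∀ c ⊆ b, BsG_S f c = 0 → c = ∅).Nonempty :=
    ⟨∅, mem_filter.2 ⟨mem_powerset.2 (empty_subset _), fun c hc _ => subset_empty.1 hc⟩⟩
  obtain ⟨b, hb, hmax⟩ := exists_max_image _ Finset.card hne
  obtain ⟨hbu, hind⟩ := mem_filter.1 hb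
  rw [mem_powerset] at hbu
  have hinj : ∀ c ⊆ b, ∀ d ⊆ b, BsG_S f c = BsG_S f d → c = d := by
    intro c hc d hd hcd
    have h1 : BsG_S f (symmDiff c d) = 0 := by
      rw [BsG_symm, hcd, BsG_two]
    have h2 : symmDiff c d ⊆ b := by
      intro x hx
      rcases mem_symmDiff.1 hx with h | h
      · exact hc h.1
      · exact hd h.1
    have h3 := hind _ h2 h1
    exact symmDiff_eq_bot.1 h3
  -- the subgroup of all sums
  let R : AddSubgroup (G ⧸ PP G) :=
    { carrier := {x | ∃ c ⊆ b, BsG_S f c = x}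
      add_mem' := by
        rintro x y ⟨c, hc, rfl⟩ ⟨d, hd, rfl⟩
        refine ⟨symmDiff c d, ?_, BsG_symm f c d⟩
        intro x hx
        rcases mem_symmDiff.1 hx with h | h
        · exact hc h.1
        · exact hd h.1
      zero_mem' := ⟨∅, empty_subset _, by simp [BsG_S]⟩
      neg_mem' := by
        rintro x ⟨c, hc, rfl⟩
        exact ⟨c, hc, (neg_eq_of_add_eq_zero_left (BsG_two _)).symm⟩ }
  have hmem : ∀ i ∈ u, (QuotientAddGroup.mk (f i) : G ⧸ PP G) ∈ R := by
    intro i hi
    by_cases hib : i ∈ b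
    · exact ⟨{i}, singleton_subset_iff.2 hib, by simp [BsG_S]⟩
    · by_contra hcon
      have h1 : insert i b ∈ u.powerset.filter fun b => ∀ c ⊆ b, BsG_S f c = 0 → c = ∅ := by
        refine mem_filter.2 ⟨mem_powerset.2 (insert_subset hi hbu), ?_⟩
        intro c hc hc0
        by_cases hic : i ∈ c
        · exfalso
          apply hcon
          have h2 : c.erase i ⊆ b := by
            intro x hx
            rw [mem_erase] at hx
            rcases mem_insert.1 (hc hx.2) with h | h
            · exact absurd h hx.1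
            · exact h
          refine ⟨c.erase i, h2, ?_⟩
          have h3 : (QuotientAddGroup.mk (f i) : G ⧸ PP G) + BsG_S f (c.erase i) = 0 := by
            unfold BsG_S
            rw [add_sum_erase c (fun i => (QuotientAddGroup.mk (f i) : G ⧸ PP G)) hic]
            exact hc0
          have h4 := BsG_two (BsG_S f (c.erase i))
          exact add_right_cancel (h4.trans h3.symm)
        · refine hind c ?_ hc0
          intro x hx
          rcases mem_insert.1 (hc hx) with h | h
          · rw [h] at hx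
            exact absurd hx hic
          · exact h
      have h2 := hmax _ h1
      rw [card_insert_of_notMem hib] at h2
      omega
  have htop : ∀ x : G, (QuotientAddGroup.mk x : G ⧸ PP G) ∈ R := by
    have h1 : gen u f ≤ R.comap (QuotientAddGroup.mk' (PP G)) := by
      unfold gen
      rw [AddSubgroup.closure_le]
      rintro x ⟨i, hi, rfl⟩
      exact hmem i hi
    rw [hgen] at h1
    intro x
    exact h1 (AddSubgroup.mem_top x)
  have hmod : ∀ x ∈ FS b f, ∀ x' ∈ FS b f, x - x' ∈ PP G → x = x' := by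
    intro x hx x' hx' hxx
    obtain ⟨c, hc, rfl⟩ := mem_FS.1 hx
    obtain ⟨d, hd, rfl⟩ := mem_FS.1 hx'
    have h1 : (QuotientAddGroup.mk (∑ i ∈ c, f i) : G ⧸ PP G) =
        QuotientAddGroup.mk (∑ i ∈ d, f i) := by
      rw [eq_comm, QuotientAddGroup.eq, neg_add_eq_sub]
      exact hxx
    rw [BsG_mk, BsG_mk] at h1
    rw [hinj c hc d hd h1]
  have hcard : (FS b f).card = 2 ^ b.card := by
    unfold FS
    rw [card_image_of_injOn, card_powerset]
    intro c hc d hd hcd
    refine hinj c (mem_powerset.1 (mem_coe.1 hc)) d (mem_powerset.1 (mem_coe.1 hd)) ?_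
    rw [← BsG_mk, ← BsG_mk]
    exact congrArg _ hcd
  refine ⟨b, hbu, ?_, ?_, hcard, hmod⟩
  · rw [← hcard, AddSubgroup.index_eq_card]
    have h1 : Nat.card (FS b f) = Nat.card (G ⧸ PP G) := by
      refine Nat.card_congr (Equiv.ofBijective
        (fun x : FS b f => (QuotientAddGroup.mk (x : G) : G ⧸ PP G)) ⟨?_, ?_⟩)
      · intro x x' hxx
        apply Subtype.ext
        refine hmod x x.2 x' x'.2 ?_
        have h2 : (QuotientAddGroup.mk (x : G) : G ⧸ PP G) = QuotientAddGroup.mk (x' : G) := hxx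
        rw [eq_comm, QuotientAddGroup.eq, neg_add_eq_sub] at h2
        exact h2
      · intro y
        obtain ⟨z, rfl⟩ := QuotientAddGroup.mk_surjective y
        obtain ⟨c, hc, hcz⟩ := htop z
        refine ⟨⟨∑ i ∈ c, f i, mem_FS.2 ⟨c, hc, rfl⟩⟩, ?_⟩
        show (QuotientAddGroup.mk (∑ i ∈ c, f i) : G ⧸ PP G) = _
        rw [BsG_mk, hcz]
    rw [← h1, Nat.card_eq_fintype_card, Fintype.card_coe]
  · intro x
    obtain ⟨c, hc, hcx⟩ := htop x
    refine ⟨∑ i ∈ c, f i, mem_FS.2 ⟨c, hc, rfl⟩, ?_⟩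
    rw [← BsG_mk, QuotientAddGroup.eq, neg_add_eq_sub] at hcx
    exact hcx

end Pool.Agent.SZC
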