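import Pool.Agent.SZC.St

/-!
# SZC, module C2a: `8` divides `|G[2]|`, `4` divides the exponent
-/

set_option autoImplicit false

noncomputable section

open Finset Pool.Agent.Helper64.Rho Pool.Agent.SDG Pool.Agent.MDR Pool.Agent.SSC Pool.Agent.SSE Pool.Agent.SZA
open scoped Classical Pointwise

namespace Pool.Agent.SZC

private theorem C2a_el (G : Type) [AddCommGroup G] [Finite G] (h : 4 ∣ AddMonoid.exponent G) :
    ∃ y : G, (4 : ℕ) • y = 0 ∧ (2 : ℕ) • y ≠ 0 := by
  obtain ⟨x, hx⟩ := AddMonoid.exists_addOrderOf_eq_exponent (G := G) AddMonoid.ExponentExists.of_finite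
  obtain ⟨c, hc⟩ := h
  have he : AddMonoid.exponent G ≠ 0 := AddMonoid.exponent_ne_zero_of_finite
  refine ⟨c • x, ?_, ?_⟩
  · rw [← mul_nsmul', ← hc, ← hx]
    exact addOrderOf_nsmul_eq_zero x
  · intro h2
    rw [← mul_nsmul'] at h2
    have h3 := addOrderOf_dvd_of_nsmul_eq_zero h2
    rw [hx, hc] at h3
    have h4 := Nat.le_of_dvd (by omega) h3
    omega

/-- the doubles have even order -/
private theorem C2a_even (G : Type) [AddCommGroup G] [Finite G] (h : 4 ∣ AddMonoid.exponent G) :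
    2 ∣ Nat.card (Pool.Agent.SZA.PP G) := by
  obtain ⟨y, h4, h2⟩ := C2a_el G h
  have hm : (2 : ℕ) • y ∈ Pool.Agent.SZA.PP G := ⟨y, rfl⟩
  have h5 : addOrderOf (⟨(2 : ℕ) • y, hm⟩ : Pool.Agent.SZA.PP G) = 2 := by
    apply addOrderOf_eq_prime
    · apply Subtype.ext
      show (2 : ℕ) • ((2 : ℕ) • y) = 0
      rw [← mul_nsmul']
      exact h4
    · intro h6
      exact h2 (congrArg Subtype.val h6)
  rw [← h5]
  exact addOrderOf_dvd_natCard _

private theorem C2a_cf : cf 8 2 = 3 ∧ cf 16 2 = 3 ∧ cf 2 9 = 26 ∧ cf 2 10 = 31 := by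
  refine ⟨?_, ?_, ?_, ?_⟩ <;> decide

theorem thm_C2a : St_Kq → St_Nf0 → St_Kd → St_Ix2 → St_S10 → St_S16 → St_S32 → St_C2a := by
  intro hKq hNf hKd hIx hS10 hS16 hS32 G _ _ A h8 h4 hA
  have hn0 : 0 < Nat.card G := Nat.card_pos
  have hix := hIx G
  have hmul : Nat.card (Pool.Agent.SZA.PP G) * (Pool.Agent.SZA.PP G).index = Nat.card G :=
    AddSubgroup.card_mul_index _
  rw [hix] at hmul
  obtain ⟨c, hc⟩ := C2a_even G h4
  obtain ⟨b, hb⟩ := h8
  rw [hc, hb] at hmul
  have h16 : 16 * (c * b) = Nat.card G := by rw [← hmul]; ring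
  have hcb : c * b ≠ 0 := by
    intro h
    rw [h] at h16
    omega
  have hn2 : 2 ≤ Nat.card G := by omega
  obtain ⟨hf1, hf2, -, hf4, -, -⟩ := hNf G A hn2 hA
  obtain ⟨hk1, hk2, -⟩ := hKd G A hn2 hA
  rcases hk1 4 le_rfl h4 with h | ht
  · exact Or.inl h
  rcases Nat.lt_or_ge (Nat.card G) 64 with h64 | h64
  swap
  · exact Or.inl (hk2 4 le_rfl h4 (by omega))
  obtain ⟨c2, c3, c4, c5⟩ := C2a_cf
  obtain ⟨H, hH, hcard, hval⟩ := hKq G 4 (by norm_num) h4
  obtain ⟨h0, hgen, hAp, -⟩ := hA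
  have hcb3 : c * b = 1 ∨ c * b = 2 ∨ c * b = 3 := by omega
  rcases hcb3 with h1 | h1 | h1
  · -- `n = 16`
    have hn : Nat.card G = 16 := by omega
    obtain ⟨hc1, hb1⟩ := mul_eq_one.1 h1
    subst hc1
    subst hb1
    have ht1 : 5 ≤ A.card := by omega
    have ht2 : A.card ≤ 6 := by
      by_contra hh
      have : 8 * 8 ≤ (A.card + 1) ^ 2 := by
        rw [sq]
        exact Nat.mul_le_mul (by omega) (by omega)
      omega
    obtain ⟨s5, s6⟩ := hS16 G A hn (by omega) h0 hgen hAp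
    have ht3 : A.card = 5 ∨ A.card = 6 := by omega
    rcases ht3 with h5 | h6
    · left
      refine ⟨H, hH, ?_⟩
      have hH4 : Nat.card H = 4 := by omega
      rw [hval, hH4, h5]
      have := s5 h5
      have e1 : cf (2 * 4) (max 1 (5 + 1 - 4)) = 3 := c2
      rw [e1]
      omega
    · right
      refine ⟨hn, ?_, h6, by have := s6 h6; omega⟩
      refine Nat.dvd_antisymm ?_ h4
      rw [AddMonoid.exponent_dvd_iff_forall_nsmul_eq_zero]
      intro x
      have h9 : Nat.card (Pool.Agent.SZA.PP G) • (⟨(2 : ℕ) • x, ⟨x, rfl⟩⟩ : Pool.Agent.SZA.PP G) = 0 :=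
        card_nsmul_eq_zero'
      rw [hc] at h9
      have h10 : (2 * 1) • ((2 : ℕ) • x) = 0 := congrArg Subtype.val h9
      rw [← mul_nsmul'] at h10
      exact h10
  · -- `n = 32`
    have hn : Nat.card G = 32 := by omega
    have ht1 : 9 ≤ A.card := by omega
    have ht2 : A.card ≤ 10 := by
      by_contra hh
      have : 12 * 12 ≤ (A.card + 1) ^ 2 := by
        rw [sq]
        exact Nat.mul_le_mul (by omega) (by omega)
      omega
    have ht3 : A.card = 9 ∨ A.card = 10 := by omega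
    rcases ht3 with h5 | h6
    · left
      refine ⟨H, hH, ?_⟩
      have hH4 : Nat.card H = 8 := by omega
      rw [hval, hH4, h5]
      rw [h5, c4] at hf1
      have e1 : cf (2 * 8) (max 1 (9 + 1 - 8)) = 3 := c3
      rw [e1]
      omega
    · exfalso
      rw [h6, c5] at hf1
      have hb2 : b = 1 ∨ b = 2 := by
        have : b ∣ 2 := ⟨c, by rw [mul_comm]; exact h1.symm⟩
        exact (Nat.dvd_prime Nat.prime_two).1 this
      rcases hb2 with rfl | rfl
      · exact hS32 G A hn (by omega) h0 hgen hAp h6 (by omega)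
      · have := hS10 G A (by omega) h0 hgen hAp h6
        omega
  · -- `n = 48`
    exfalso
    have hn : Nat.card G = 48 := by omega
    have : 14 * 14 ≤ (A.card + 1) ^ 2 := by
      rw [sq]
      exact Nat.mul_le_mul (by omega) (by omega)
    omega

end Pool.Agent.SZC
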