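import Pool.Agent.SZC.St

/-!
# SZC.C2b: the case `8` divides `|G[2]|`, `4` does not divide the exponent, `3` does (helper65)
-/

set_option autoImplicit false

noncomputable section

open Finset Pool.Agent.Helper64.Rho Pool.Agent.SDG Pool.Agent.MDR Pool.Agent.SSC Pool.Agent.SSE Pool.Agent.SZA
open scoped Classical Pointwise

namespace Pool.Agent.SZC

private theorem C2b_odd {G : Type} [AddCommGroup G] [Finite G] (h4 : ¬ 4 ∣ AddMonoid.exponent G) : ¬ 2 ∣ Nat.card (Pool.Agent.SZA.PP G) := by
  intro h2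
  have : Fact (Nat.Prime 2) := ⟨Nat.prime_two⟩
  obtain ⟨y, hy⟩ := exists_prime_addOrderOf_dvd_card' (G := Pool.Agent.SZA.PP G) 2 h2
  rw [← AddSubgroup.addOrderOf_coe] at hy
  obtain ⟨x, hx⟩ : ∃ x : G, (2 : ℕ) • x = (y : G) := y.2
  generalize (y : G) = y at hy hx
  have hx' := hx
  refine h4 ?_
  have h5 : addOrderOf x = 2 ^ (1 + 1) := by
    refine addOrderOf_eq_prime_pow ?_ ?_
    · rw [pow_one, hx']
      intro h6
      rw [h6, addOrderOf_zero] at hy
      omega
    · have h6 : (2 ^ (1 + 1)) • x = (2 : ℕ) • ((2 : ℕ) • x) := by rw [← mul_nsmul]; rfl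
      rw [h6, hx', ← hy]
      exact addOrderOf_nsmul_eq_zero y
  have h6 := AddMonoid.addOrder_dvd_exponent x
  rw [h5] at h6
  exact h6

theorem thm_C2b : St_Kq → St_Nf0 → St_Kd → St_Ix2 → St_S10 → St_C2b := by
  intro hKq hNf hKd hIx hS10 G _ _ A h8 h4 h3 hA
  have : Fact (Nat.Prime 2) := ⟨Nat.prime_two⟩
  have hix := hIx G
  have h8n : 8 ∣ Nat.card G := (hix ▸ h8 : 8 ∣ (Pool.Agent.SZA.PP G).index).trans (AddSubgroup.index_dvd_card _)
  have h3n : 3 ∣ Nat.card G := h3.trans AddGroup.exponent_dvd_nat_card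
  have hpos : 0 < Nat.card G := Nat.card_pos
  have h2e : 2 ∣ AddMonoid.exponent G := by
    obtain ⟨y, hy⟩ := exists_prime_addOrderOf_dvd_card' (G := G) 2 (by omega)
    rw [← hy]
    exact AddMonoid.addOrder_dvd_exponent y
  have h6e : 6 ∣ AddMonoid.exponent G := by omega
  obtain ⟨n1, n2, n3, n4, -, -⟩ := hNf G A (by omega) hA
  obtain ⟨k1, -, k3, k4, -⟩ := hKd G A (by omega) hA
  by_cases h72 : 72 ≤ Nat.card G
  · exact k4 h6e h72
  rcases k3 h3 (by omega) with hd | hT
  · exact hd
  obtain ⟨a1, a2, a3, a4⟩ := hA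
  have hn : Nat.card G = 24 ∨ Nat.card G = 48 := by omega
  rcases hn with hn | hn
  · exfalso
    have hT15 : (FS A id).card ≤ 15 := by omega
    have ht : A.card ≤ 6 := by
      by_contra hcon
      have h9 : 8 ≤ A.card + 1 := by omega
      have h10 : 8 ^ 2 ≤ (A.card + 1) ^ 2 := Nat.pow_le_pow_left h9 2
      omega
    have hj : jj A.card ≤ 3 := by unfold jj; omega
    have hj2 : jj A.card * (jj A.card - 1) ≤ 3 * 2 := Nat.mul_le_mul hj (by omega)
    omega
  · have hT31 : (FS A id).card ≤ 31 := by omega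
    have ht : A.card ≤ 10 := by
      by_contra hcon
      have h9 : 12 ≤ A.card + 1 := by omega
      have h10 : 12 ^ 2 ≤ (A.card + 1) ^ 2 := Nat.pow_le_pow_left h9 2
      omega
    rcases k1 6 (by omega) h6e with hd | ht9
    · exact hd
    have ht2 : A.card = 9 ∨ A.card = 10 := by omega
    rcases ht2 with ht2 | ht2
    · obtain ⟨H, hH, hHc, hv⟩ := hKq G 6 (by omega) h6e
      refine ⟨H, hH, ?_⟩
      have hH8 : Nat.card H = 8 := by omega
      rw [hv, hH8, ht2]
      rw [ht2] at n1
      have e1 : cf 2 9 = 26 := by decide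
      have e2 : cf (2 * 8) (max 1 (9 + 1 - 8)) = 3 := by decide
      rw [e2]
      omega
    · exfalso
      have hodd := C2b_odd h4
      have hci : Nat.card (Pool.Agent.SZA.PP G) * (Pool.Agent.SZA.PP G).index = 48 := by
        rw [AddSubgroup.card_mul_index, hn]
      have hpne : Nat.card (Pool.Agent.SZA.PP G) ≠ 1 := by
        intro h1
        have hbot : Pool.Agent.SZA.PP G = ⊥ := AddSubgroup.card_eq_one.1 h1
        have hall : ∀ x : G, (2 : ℕ) • x = 0 := by
          intro x
          have : (2 : ℕ) • x ∈ Pool.Agent.SZA.PP G := ⟨x, rfl⟩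
          rw [hbot] at this
          exact AddSubgroup.mem_bot.1 this
        have h5 := AddMonoid.exponent_dvd_of_forall_nsmul_eq_zero hall
        have h6 := h3.trans h5
        omega
      have hi16 : (Pool.Agent.SZA.PP G).index = 16 := by
        have h5 : Nat.card (Pool.Agent.SZA.PP G) ∣ 48 := ⟨_, hci.symm⟩
        have h6 : Nat.card (Pool.Agent.SZA.PP G) ≤ 48 := Nat.le_of_dvd (by omega) h5
        have h7 : Nat.card (Pool.Agent.SZA.PP G) = 3 := by
          generalize Nat.card (Pool.Agent.SZA.PP G) = m at *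
          clear hci
          interval_cases m <;> omega
        rw [h7] at hci
        omega
      have := hS10 G A hi16 a1 a2 a3 ht2
      omega

end Pool.Agent.SZC
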