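import Mathlib
import Pool.Agent.SZC.St
import Pool.Agent.SSX.Main
import Pool.Agent.EXT.Lower
import Pool.Agent.SNS.Sx

set_option autoImplicit false

noncomputable section

open Finset Pool.Agent.Helper64.Rho Pool.Agent.SDG Pool.Agent.MDR Pool.Agent.SSC Pool.Agent.SSE Pool.Agent.SZA
open scoped Classical Pointwise

namespace Pool.Agent.SZC

/-- the subgroup of the elements killed by 3 -/
private def C3_K (G : Type) [AddCommGroup G] : AddSubgroup G := (nsmulAddMonoidHom 3 : G →+ G).ker

private lemma C3_mem {G : Type} [AddCommGroup G] (x : G) : x ∈ C3_K G ↔ (3 : ℕ) • x = 0 := by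
  rw [C3_K, AddMonoidHom.mem_ker]
  rfl

private lemma C3_card (G : Type) [AddCommGroup G] : Nat.card (C3_K G) = Nat.card {x : G // (3 : ℕ) • x = 0} :=
  Nat.card_congr (Equiv.subtypeEquivRight C3_mem)

private lemma C3_exp {G : Type} [AddCommGroup G] [Finite G] (p : ℕ) (hp : p.Prime) (h : p ∣ Nat.card G) : p ∣ AddMonoid.exponent G := by
  have : Fact p.Prime := ⟨hp⟩
  obtain ⟨x, hx⟩ := exists_prime_addOrderOf_dvd_card' p h
  rw [← hx]
  exact AddMonoid.addOrder_dvd_exponent x

/-- nine kills everything if `|G| = 81` and `27` divides `|G[3]|` -/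
private lemma C3_nine {G : Type} [AddCommGroup G] [Finite G] (hn : Nat.card G = 81) (h : 27 ∣ Nat.card (C3_K G)) :
    ∀ x : G, (9 : ℕ) • x = 0 := by
  intro x
  have h1 : Nat.card (nsmulAddMonoidHom 3 : G →+ G).range * Nat.card (C3_K G) = Nat.card G := by
    have h2 := AddSubgroup.card_mul_index (C3_K G)
    rw [C3_K, AddSubgroup.index_ker] at h2
    rw [mul_comm]
    exact h2
  rw [hn] at h1
  obtain ⟨k, hk⟩ := h
  rw [hk] at h1
  have h3 : Nat.card (nsmulAddMonoidHom 3 : G →+ G).range * k = 3 := by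
    have : 27 * (Nat.card (nsmulAddMonoidHom 3 : G →+ G).range * k) = 27 * 3 := by
      rw [← mul_assoc, mul_comm 27, mul_assoc, h1]
    exact Nat.eq_of_mul_eq_mul_left (by norm_num) this
  have h4 : Nat.card (nsmulAddMonoidHom 3 : G →+ G).range ∣ 3 := ⟨k, h3.symm⟩
  have h5 : ∀ R : AddSubgroup G, Nat.card R ∣ 3 → ∀ y : R, (3 : ℕ) • y = 0 := by
    intro R hR y
    obtain ⟨c, hc⟩ := hR
    rw [hc, mul_nsmul, card_nsmul_eq_zero', nsmul_zero]
  have h6 := congrArg Subtype.val (h5 _ h4 ⟨(3 : ℕ) • x, ⟨x, rfl⟩⟩)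
  have h7 : (3 : ℕ) • ((3 : ℕ) • x) = 0 := h6
  rw [← mul_nsmul] at h7
  exact h7

private lemma C3_cf (g y : ℕ) (hg : 1 ≤ g) (hy : y ≤ g) : cf g y = 1 + y := SNW.W2_lin g y hg hy

theorem thm_C3 : St_Kq → St_K9 → St_Nf0 → St_Kd → St_C3 := by
  intro hKq hK9 hNf0 hKd G _ _ A hM h27 hA
  rw [← C3_card] at h27
  have h27n : 27 ∣ Nat.card G := h27.trans (AddSubgroup.card_addSubgroup_dvd_card _)
  have hpos : 0 < Nat.card G := Nat.card_pos
  have hn2 : 27 ≤ Nat.card G := Nat.le_of_dvd hpos h27n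
  obtain ⟨hcf, hTn, -, hT1, hA1, -⟩ := hNf0 G A (by omega) hA
  obtain ⟨hd1, hd2, hd3, hd4, hd5⟩ := hKd G A (by omega) hA
  have h3e : 3 ∣ AddMonoid.exponent G := C3_exp 3 (by norm_num) (dvd_trans (by norm_num) h27n)
  rcases hd3 h3e (by omega) with h | h3T
  · exact h
  rcases hd5 (by rw [← C3_card]; exact dvd_trans (by norm_num) h27) with h | h9t
  · exact h
  have hall : ∀ k, Nat.card G = 3 ^ k → (∀ x : G, (3 : ℕ) • x = 0) →
      ∀ j, 1 ≤ j → k + EXT.tau j ≤ A.card → j ≤ k ∧ 3 ^ j * 2 ^ (k - j) ≤ (FS A id).card := by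
    intro k hk h3
    have := Fintype.ofFinite G
    exact (EXT.lower (G := G) (fun x => by rw [← h3 x]; abel) hk hA.1 hA.2.1).1
  have hnf := hA.2.2.2
  obtain ⟨k, hk⟩ := h27n
  have hk5 : k ≤ 5 := by
    by_contra hk6
    have h1 : (Nat.card G + 27) ^ 2 ≤ (9 * (A.card + 1)) ^ 2 := Nat.pow_le_pow_left (by omega) 2
    rw [hk] at h1 h3T
    nlinarith
  have hk1 : 1 ≤ k := by omega
  have hcases : k = 1 ∨ k = 2 ∨ k = 3 ∨ k = 4 ∨ k = 5 := by omega
  rcases hcases with rfl | rfl | rfl | rfl | rfl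
  · -- `n = 27`
    exfalso
    have hn : Nat.card G = 27 := hk
    have htop : C3_K G = ⊤ := by
      apply AddSubgroup.eq_top_of_card_eq
      apply Nat.dvd_antisymm (AddSubgroup.card_addSubgroup_dvd_card _)
      rw [hn]
      exact h27
    have h3 : ∀ x : G, (3 : ℕ) • x = 0 := fun x => (C3_mem x).1 (by rw [htop]; exact AddSubgroup.mem_top x)
    rw [hn] at h3T h9t hnf
    have ht7 : A.card ≤ 7 := by
      by_contra h
      have : 9 ^ 2 ≤ (A.card + 1) ^ 2 := Nat.pow_le_pow_left (by omega) 2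
      omega
    have ht : A.card = 5 ∨ A.card = 6 ∨ A.card = 7 := by omega
    rcases ht with ht | ht | ht
    · rw [ht] at hnf
      norm_num [jj] at hnf
      omega
    · rw [ht] at hnf
      norm_num [jj] at hnf
      omega
    · have h1 := (hall 3 hn h3 2 (by norm_num) (by rw [ht]; norm_num [EXT.tau])).2
      norm_num at h1
      omega
  · -- `n = 54`
    have hn : Nat.card G = 54 := hk
    have h6e : 6 ∣ AddMonoid.exponent G := by
      have h2e : 2 ∣ AddMonoid.exponent G := C3_exp 2 (by norm_num) (by rw [hn]; norm_num)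
      exact Nat.Coprime.mul_dvd_of_dvd_of_dvd (by norm_num) h2e h3e
    rcases hd1 6 (by norm_num) h6e with h | h6
    · exact h
    rw [hn] at h3T h9t hnf h6
    have ht10 : A.card ≤ 10 := by
      by_contra h
      have : 12 ^ 2 ≤ (A.card + 1) ^ 2 := Nat.pow_le_pow_left (by omega) 2
      omega
    have ht : A.card = 10 := by omega
    rw [ht] at hnf
    norm_num [jj] at hnf
    obtain ⟨H, hH, hHc, hv⟩ := hKq G 6 (by norm_num) h6e
    have hH9 : Nat.card H = 9 := by omega
    refine ⟨H, hH, ?_⟩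
    rw [hv, ht, hH9]
    have : cf (2 * 9) (max 1 (10 + 1 - 9)) = 3 := C3_cf 18 2 (by norm_num) (by norm_num)
    rw [this]
    omega
  · -- `n = 81`
    have hn : Nat.card G = 81 := hk
    rw [hn] at h3T h9t hnf
    have ht13 : A.card ≤ 13 := by
      by_contra h
      have : 15 ^ 2 ≤ (A.card + 1) ^ 2 := Nat.pow_le_pow_left (by omega) 2
      omega
    by_cases h3 : ∀ x : G, (3 : ℕ) • x = 0
    · exfalso
      have h1 := (hall 4 hn h3 3 (by norm_num) (by norm_num [EXT.tau]; omega)).2
      norm_num at h1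
      omega
    · have h9 := C3_nine hn h27
      have he9 : AddMonoid.exponent G ∣ 9 := AddMonoid.exponent_dvd_of_forall_nsmul_eq_zero h9
      have he : AddMonoid.exponent G = 9 := by
        have h1 : AddMonoid.exponent G ∣ 3 ^ 2 := he9
        obtain ⟨i, hi, he'⟩ := (Nat.dvd_prime_pow (by norm_num)).1 h1
        have h2 : ¬ i ≤ 1 := by
          intro hi1
          apply h3
          intro x
          have h4 : AddMonoid.exponent G ∣ 3 := by
            rw [he']
            exact pow_dvd_pow 3 hi1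
          obtain ⟨c, hc⟩ := h4
          rw [hc, mul_nsmul, AddMonoid.exponent_nsmul_eq_zero, nsmul_zero]
        have h5 : i = 2 := by omega
        rw [he', h5]
        norm_num
      by_cases ht : A.card = 13
      · exfalso
        have hl0 : SNW.l0 G = 9 := by
          unfold SNW.l0
          rw [hn, he]
        exact SNS.no_81a G hn hl0.ge (fun ι s f h0 hc ha => SSX.PAG_all G ι s f h0 hc ha) hM A hA.1 hA.2.2.1 hA.2.1 ht (by omega)
      · obtain ⟨H, hH, hHc, hv⟩ := hKq G 9 (by norm_num) (by rw [he])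
        have hH9 : Nat.card H = 9 := by omega
        refine ⟨H, hH, ?_⟩
        rw [hv, hH9]
        have ht2 : A.card = 11 ∨ A.card = 12 := by omega
        rcases ht2 with ht2 | ht2
        · rw [ht2] at hnf ⊢
          norm_num [jj] at hnf
          have : cf (2 * 9) (max 1 (11 + 1 - 9)) = 4 := C3_cf 18 3 (by norm_num) (by norm_num)
          rw [this]
          omega
        · rw [ht2] at hnf ⊢
          norm_num [jj] at hnf
          have : cf (2 * 9) (max 1 (12 + 1 - 9)) = 5 := C3_cf 18 4 (by norm_num) (by norm_num)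
          rw [this]
          omega
  · -- `n = 108`
    have hn : Nat.card G = 108 := hk
    have h6e : 6 ∣ AddMonoid.exponent G := by
      have h2e : 2 ∣ AddMonoid.exponent G := C3_exp 2 (by norm_num) (by rw [hn]; norm_num)
      exact Nat.Coprime.mul_dvd_of_dvd_of_dvd (by norm_num) h2e h3e
    exact hd4 h6e (by omega)
  · -- `n = 135`
    have hn : Nat.card G = 135 := hk
    exact hd2 5 (by norm_num) (C3_exp 5 (by norm_num) (by rw [hn]; norm_num)) (by omega)

end Pool.Agent.SZC
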