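import Pool.Agent.SZC.St

/-!
# SZC, module C5 (MP_ec93d3_co): rank at least three at a prime `p ≥ 5`
-/

set_option autoImplicit false

noncomputable section

open Finset Pool.Agent.Helper64.Rho Pool.Agent.SDG Pool.Agent.MDR Pool.Agent.SSC Pool.Agent.SSE Pool.Agent.SZA
open scoped Classical Pointwise

namespace Pool.Agent.SZC

theorem thm_C5 (hKd : St_Kd) : St_C5 := by
  intro G _ _ p A hp hp5 hdvd hA
  have : Fact p.Prime := ⟨hp⟩
  have : Nonempty {x : G // p • x = 0} := ⟨⟨0, smul_zero p⟩⟩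
  have hpos : 0 < Nat.card {x : G // p • x = 0} := Nat.card_pos
  have hle : p ^ 3 ≤ Nat.card {x : G // p • x = 0} := Nat.le_of_dvd hpos hdvd
  have hle2 : Nat.card {x : G // p • x = 0} ≤ Nat.card G :=
    Nat.card_le_card_of_injective Subtype.val Subtype.val_injective
  have h4 : 4 * p ^ 2 ≤ p ^ 3 := by nlinarith [sq_nonneg p]
  have h2 : 2 ≤ Nat.card G := by nlinarith [sq_nonneg p]
  have hex : p ∣ AddMonoid.exponent G := by
    have h1 : 1 < Nat.card {x : G // p • x = 0} := by nlinarith [sq_nonneg p]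
    obtain ⟨x, y, hxy⟩ := (Finite.one_lt_card_iff_nontrivial.1 h1).exists_pair_ne
    have : ∃ z : G, p • z = 0 ∧ z ≠ 0 := by
      by_cases hx : (x : G) = 0
      · refine ⟨y, y.2, fun hy => hxy (Subtype.ext (hx.trans hy.symm))⟩
      · exact ⟨x, x.2, hx⟩
    obtain ⟨z, hz, hz0⟩ := this
    have h3 : addOrderOf z = p := addOrderOf_eq_prime hz hz0
    rw [← h3]
    exact AddMonoid.addOrder_dvd_exponent z
  exact (hKd G A h2 hA).2.1 p (by omega) hex (by omega)

end Pool.Agent.SZC
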