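import Pool.Agent.SZC.St

/-!
# SZC, module ClG: the number of coloops, any finite group (from SZA/Clc.lean)
-/

set_option autoImplicit false

noncomputable section

open Finset Pool.Agent.Helper64.Rho Pool.Agent.SDG Pool.Agent.MDR Pool.Agent.SSC Pool.Agent.SSE Pool.Agent.SZA
open scoped Classical Pointwise

namespace Pool.Agent.SZC

private theorem ClG_sub {G ι : Type} [AddCommGroup G] {q Q A B : Finset ι} {f : ι → G}
    (hP : ∀ M : AddSubgroup G, M.index = 2 → PP G ≤ M) (hQ : Q ⊆ q)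
    (hc : ∀ x ∈ Q, Pool.Agent.SSX.Clp q f x) (hA : A ⊆ Q) (hB : B ⊆ Q)
    (h : ∑ i ∈ A, f i - ∑ i ∈ B, f i ∈ PP G) : A ⊆ B := by
  intro x hx
  by_contra hxB
  obtain ⟨M, hM, hxM, hj⟩ := hc x (hA hx)
  have h1 : ∑ i ∈ A.erase x, f i ∈ M := M.sum_mem fun i hi =>
    hj i (Finset.mem_erase.2 ⟨(Finset.mem_erase.1 hi).1, hQ (hA (Finset.mem_erase.1 hi).2)⟩)
  have h2 : ∑ i ∈ B, f i ∈ M := M.sum_mem fun i hi =>
    hj i (Finset.mem_erase.2 ⟨fun e => hxB (e ▸ hi), hQ (hB hi)⟩)
  have h3 := hP M hM h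
  have h4 : ∑ i ∈ A, f i = f x + ∑ i ∈ A.erase x, f i := (Finset.add_sum_erase _ _ hx).symm
  apply hxM
  have h5 : f x = (∑ i ∈ A, f i - ∑ i ∈ B, f i) - ∑ i ∈ A.erase x, f i + ∑ i ∈ B, f i := by
    rw [h4]; abel
  rw [h5]
  exact M.add_mem (M.sub_mem h3 h1) h2

private theorem ClG_quo {G : Type} [AddCommGroup G] (P : AddSubgroup G) {x y : G}
    (h : (QuotientAddGroup.mk x : G ⧸ P) = QuotientAddGroup.mk y) : x - y ∈ P := by
  have h1 := QuotientAddGroup.eq.1 h
  have e : x - y = -(-x + y) := by abel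
  rw [e]
  exact P.neg_mem h1

theorem thm_ClG : St_ClG := by
  intro G ι _ _ a q Q f hidx hQ hc
  have hP : ∀ M : AddSubgroup G, M.index = 2 → PP G ≤ M := by
    rintro M hM _ ⟨x, rfl⟩
    exact AddSubgroup.two_smul_mem_of_index_two hM x
  have hinj : ∀ A ⊆ Q, ∀ B ⊆ Q, ∑ i ∈ A, f i - ∑ i ∈ B, f i ∈ PP G → A = B :=
    fun A hA B hB h => Finset.Subset.antisymm (ClG_sub hP hQ hc hA hB h)
      (ClG_sub hP hQ hc hB hA (by rw [← neg_sub]; exact (PP G).neg_mem h))
  have _ : Fintype (G ⧸ PP G) := Fintype.ofFinite _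
  have hcard : (Finset.univ : Finset (G ⧸ PP G)).card = 2 ^ a := by
    rw [Finset.card_univ, ← Nat.card_eq_fintype_card]
    exact hidx
  refine ⟨?_, ?_⟩
  · have h := Finset.card_le_card_of_injOn (s := Q.powerset)
      (t := (Finset.univ : Finset (G ⧸ PP G)))
      (fun A => (QuotientAddGroup.mk (∑ i ∈ A, f i) : G ⧸ PP G))
      (fun _ _ => Finset.mem_coe.2 (Finset.mem_univ _))
      (fun A hA B hB hAB => hinj A (Finset.mem_powerset.1 (Finset.mem_coe.1 hA)) B
        (Finset.mem_powerset.1 (Finset.mem_coe.1 hB)) (ClG_quo _ hAB))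
    rw [Finset.card_powerset, hcard] at h
    exact (Nat.pow_le_pow_iff_right (by norm_num)).1 h
  · intro M hM hqM
    have hy : ∃ y : G, y ∉ M := by
      by_contra hn
      push Not at hn
      have ht : M = ⊤ := (AddSubgroup.eq_top_iff' M).2 hn
      rw [ht, AddSubgroup.index_top] at hM
      exact absurd hM (by norm_num)
    obtain ⟨y, hy⟩ := hy
    have hsum : ∀ A ⊆ Q, ∑ i ∈ A, f i ∈ M := fun A hA =>
      M.sum_mem fun i hi => hqM i (hQ (hA hi))
    have h := Finset.card_le_card_of_injOn (s := Q.powerset ×ˢ (Finset.univ : Finset Bool))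
      (t := (Finset.univ : Finset (G ⧸ PP G)))
      (fun A => (QuotientAddGroup.mk (∑ i ∈ A.1, f i + if A.2 = true then y else 0) : G ⧸ PP G))
      (fun _ _ => Finset.mem_coe.2 (Finset.mem_univ _)) ?_
    · rw [Finset.card_product, Finset.card_powerset, hcard, Finset.card_univ, Fintype.card_bool,
        ← pow_succ] at h
      exact (Nat.pow_le_pow_iff_right (by norm_num)).1 h
    · rintro ⟨A, b⟩ hA ⟨B, c⟩ hB hAB
      have hA' := Finset.mem_powerset.1 (Finset.mem_product.1 (Finset.mem_coe.1 hA)).1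
      have hB' := Finset.mem_powerset.1 (Finset.mem_product.1 (Finset.mem_coe.1 hB)).1
      have hd := ClG_quo _ hAB
      have hdM := hP M hM hd
      have sA := hsum A hA'
      have sB := hsum B hB'
      have hbc : b = c := by
        rcases b with _ | _ <;> rcases c with _ | _
        · rfl
        · exfalso
          apply hy
          have e : y = ∑ i ∈ A, f i - ∑ i ∈ B, f i - (∑ i ∈ A, f i + 0 - (∑ i ∈ B, f i + y)) := by
            abel
          rw [e]
          refine M.sub_mem (M.sub_mem sA sB) ?_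
          simpa using hdM
        · exfalso
          apply hy
          have e : y = (∑ i ∈ A, f i + y - (∑ i ∈ B, f i + 0)) - (∑ i ∈ A, f i - ∑ i ∈ B, f i) := by
            abel
          rw [e]
          refine M.sub_mem ?_ (M.sub_mem sA sB)
          simpa using hdM
        · rfl
      subst hbc
      have hAB' : A = B := by
        refine hinj A hA' B hB' ?_
        simpa using hd
      rw [hAB']

end Pool.Agent.SZC
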