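import Pool.Agent.SZC.St

/-!
# SZC.Fin: the near-full statement in rank at least three (helper65)
-/

set_option autoImplicit false

noncomputable section

open Finset Pool.Agent.Helper64.Rho Pool.Agent.SDG Pool.Agent.MDR Pool.Agent.SSC Pool.Agent.SSE Pool.Agent.SZA
open scoped Classical Pointwise

namespace Pool.Agent.SZC

private theorem Fin_pow {G : Type} [AddCommGroup G] [Finite G] {p : ℕ} (hp : p.Prime) : ∃ n : ℕ, Nat.card {x : G // p • x = 0} = p ^ n := by
  have : Fact p.Prime := ⟨hp⟩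
  have e1 : Nat.card {x : G // p • x = 0} = Nat.card (nsmulAddMonoidHom p : G →+ G).ker :=
    Nat.card_congr (Equiv.subtypeEquivRight fun x => by rw [AddMonoidHom.mem_ker, nsmulAddMonoidHom_apply])
  have e2 : IsPGroup p (Multiplicative (nsmulAddMonoidHom p : G →+ G).ker) := by
    intro g
    refine ⟨1, ?_⟩
    rw [pow_one]
    have h1 : p • (Multiplicative.toAdd g) = 0 := by
      apply Subtype.ext
      have h2 : p • ((Multiplicative.toAdd g : (nsmulAddMonoidHom p : G →+ G).ker) : G) = 0 := (Multiplicative.toAdd g).2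
      simp
    exact Multiplicative.toAdd.injective (by rw [toAdd_pow, h1, toAdd_one])
  obtain ⟨n, hn⟩ := IsPGroup.iff_card.1 e2
  refine ⟨n, ?_⟩
  rw [e1, ← hn]
  exact Nat.card_congr Multiplicative.ofAdd

theorem thm_Fin : St_C5 → St_C3 → St_C2a → St_C2b → St_C2c → St_Fin := by
  intro hC5 hC3 hC2a hC2b hC2c G _ _ hR hM A hA
  unfold Pool.Agent.SSF.R2 at hR
  push Not at hR
  obtain ⟨p, hp, hlt⟩ := hR
  obtain ⟨n, hn⟩ := Fin_pow (G := G) hp
  have h3 : p ^ 3 ∣ Nat.card {x : G // p • x = 0} := by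
    rw [hn] at hlt ⊢
    have h2 : 2 < n := (Nat.pow_lt_pow_iff_right hp.one_lt).1 hlt
    exact pow_dvd_pow p h2
  rcases Nat.lt_or_ge p 5 with h5 | h5
  · have hp' : p = 2 ∨ p = 3 := by
      have h1 := hp.two_le
      interval_cases p
      · exact Or.inl rfl
      · exact Or.inr rfl
      · exact absurd hp (by norm_num)
    rcases hp' with rfl | rfl
    · have h8 : 8 ∣ Nat.card {x : G // (2 : ℕ) • x = 0} := h3
      by_cases h4 : 4 ∣ AddMonoid.exponent G
      · exact hC2a G A h8 h4 hA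
      · by_cases h6 : 3 ∣ AddMonoid.exponent G
        · exact Or.inl (hC2b G A h8 h4 h6 hA)
        · exact Or.inl (hC2c G A h8 h4 h6 hA)
    · exact Or.inl (hC3 G A hM h3 hA)
  · exact Or.inl (hC5 G p A hp h5 h3 hA)

end Pool.Agent.SZC
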