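import Pool.Agent.SZC.St
import Pool.Agent.SSX.Main

/-!
# SZC, module HfG (MP_ec93d3_co): halves that are not contained in a subgroup of index 2
-/

set_option autoImplicit false

noncomputable section

open Finset Pool.Agent.Helper64.Rho Pool.Agent.SDG Pool.Agent.MDR Pool.Agent.SSC Pool.Agent.SSE Pool.Agent.SZA
open scoped Classical Pointwise

namespace Pool.Agent.SZC

private theorem HfG_inj {G ι : Type} [AddCommGroup G] {p : Finset ι} {f : ι → G} (h : AS p f)
    {i j : ι} (hi : i ∈ p) (hj : j ∈ p) (hij : f i = f j ∨ f i = - f j) : i = j := by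
  have h1 := h.2 (f j)
  by_contra hne
  have h2 : ({i, j} : Finset ι) ⊆ p.filter fun k => f k = f j ∨ f k = - f j := by
    intro k hk
    rw [mem_insert, mem_singleton] at hk
    rw [mem_filter]
    rcases hk with rfl | rfl
    · exact ⟨hi, hij⟩
    · exact ⟨hj, Or.inl rfl⟩
  have h3 := card_le_card h2
  rw [card_pair hne] at h3
  omega

/-- the number of subgroups of index 2 containing all members of `p` -/
private def HfG_n {G ι : Type} [AddCommGroup G] (p : Finset ι) (f : ι → G) : ℕ :=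
  Set.ncard {M : AddSubgroup G | M.index = 2 ∧ ∀ i ∈ p, f i ∈ M}

private theorem HfG_sym {G ι : Type} [AddCommGroup G] {s p r : Finset ι} {f : ι → G}
    (h : Pool.Agent.SSX.Spl s p r f) : Pool.Agent.SSX.Spl s r p f :=
  ⟨h.1.symm, by rw [union_comm]; exact h.2.1, h.2.2.2.1, h.2.2.1, h.2.2.2.2.2, h.2.2.2.2.1⟩

/-- exchange of a member which is not a coloop -/
private theorem HfG_sub {G ι : Type} [AddCommGroup G] (p : Finset ι) (f : ι → G) (x y : ι)
    (h : ¬ Pool.Agent.SSX.Clp p f x) :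
    {M : AddSubgroup G | M.index = 2 ∧ ∀ i ∈ insert y (p.erase x), f i ∈ M} ⊆
      {M : AddSubgroup G | M.index = 2 ∧ ∀ i ∈ p, f i ∈ M} := by
  rintro M ⟨h2, h3⟩
  refine ⟨h2, fun i hi => ?_⟩
  by_cases hix : i = x
  · subst hix
    by_contra h4
    exact h ⟨M, h2, h4, fun j hj => h3 j (mem_insert_of_mem hj)⟩
  · exact h3 i (mem_insert_of_mem (mem_erase.2 ⟨hix, hi⟩))

/-- a part contained in a subgroup of index 2: exchange possible -/
private theorem HfG_exch (hCl : St_ClG) {G ι : Type} [AddCommGroup G] [Finite G] (a : ℕ)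
    (s q r : Finset ι) (f : ι → G) (M : AddSubgroup G) (ha : (Pool.Agent.SZA.PP G).index = 2 ^ a)
    (ho : ∀ M' : AddSubgroup G, M'.index = 2 → a + 1 ≤ (outs s f M').card)
    (hS : Pool.Agent.SSX.Spl s q r f) (hM : M.index = 2) (hq : ∀ i ∈ q, f i ∈ M) :
    ∃ x ∈ q, ∃ y ∈ r, f y ∉ M ∧ ¬ Pool.Agent.SSX.Clp q f x ∧ ¬ Pool.Agent.SSX.Clp r f y ∧
      (∀ j ∈ r, f j ≠ f x ∧ f j ≠ - f x) ∧ (∀ j ∈ q, f j ≠ f y ∧ f j ≠ - f y) := by
  obtain ⟨hdis, hun, hAq, hAr, hc1, hc2⟩ := hS
  have hout : outs s f M ⊆ outs r f M := by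
    intro i hi
    rw [outs, mem_filter] at hi ⊢
    refine ⟨?_, hi.2⟩
    rw [← hun, mem_union] at hi
    rcases hi.1 with h | h
    · exact absurd (hq i h) hi.2
    · exact h
  have h4 : a + 1 ≤ (outs r f M).card := (ho M hM).trans (card_le_card hout)
  have hio : (ins r f M).card + (outs r f M).card = r.card := by
    unfold ins outs
    exact card_filter_add_card_filter_not (fun i => f i ∈ M)
  -- the members with a partner
  have hW : (q.filter fun x => ∃ j ∈ r, f j = f x ∨ f j = - f x).card ≤ (ins r f M).card := by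
    have hex : ∀ x ∈ q.filter (fun x => ∃ j ∈ r, f j = f x ∨ f j = - f x),
        ∃ j ∈ r, f j = f x ∨ f j = - f x := fun x hx => (mem_filter.1 hx).2
    choose! φ hφr hφ using hex
    apply card_le_card_of_injOn φ
    · intro i hi
      have hi' : i ∈ q.filter (fun x => ∃ j ∈ r, f j = f x ∨ f j = - f x) := hi
      have hiq := (mem_filter.1 hi').1
      rw [mem_coe, ins, mem_filter]
      refine ⟨hφr i hi', ?_⟩
      rcases hφ i hi' with h | h
      · rw [h]; exact hq i hiq
      · rw [h]; exact M.neg_mem (hq i hiq)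
    · intro i hi j hj hij
      have hi' : i ∈ q.filter (fun x => ∃ j ∈ r, f j = f x ∨ f j = - f x) := hi
      have hj' : j ∈ q.filter (fun x => ∃ j ∈ r, f j = f x ∨ f j = - f x) := hj
      apply HfG_inj hAq (mem_filter.1 hi').1 (mem_filter.1 hj').1
      rcases hφ i hi' with h | h <;> rcases hφ j hj' with h' | h' <;> rw [hij] at h
      · exact Or.inl (h.symm.trans h')
      · exact Or.inr (h.symm.trans h')
      · right
        rw [← h', h, neg_neg]
      · left
        exact neg_injective (h.symm.trans h')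
  have hsplit : (q.filter fun x => ∃ j ∈ r, f j = f x ∨ f j = - f x).card +
      (q.filter fun x => ¬ ∃ j ∈ r, f j = f x ∨ f j = - f x).card = q.card :=
    card_filter_add_card_filter_not _
  -- a member of `q` without partner which is not a coloop
  obtain ⟨x, hxq, hxn, hxc⟩ : ∃ x ∈ q, (¬ ∃ j ∈ r, f j = f x ∨ f j = - f x) ∧
      ¬ Pool.Agent.SSX.Clp q f x := by
    by_contra hcon
    push Not at hcon
    have h5 := (hCl G ι a q (q.filter fun x => ¬ ∃ j ∈ r, f j = f x ∨ f j = - f x) f ha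
      (filter_subset _ _) (fun x hx => by
        obtain ⟨hx1, hx2⟩ := mem_filter.1 hx
        push Not at hx2
        exact hcon x hx1 hx2)).2 M hM hq
    omega
  -- a member of `r` outside `M` which is not a coloop
  obtain ⟨y, hy, hyc⟩ : ∃ y ∈ outs r f M, ¬ Pool.Agent.SSX.Clp r f y := by
    by_contra hcon
    push Not at hcon
    have h5 := (hCl G ι a r (outs r f M) f ha (filter_subset _ _) hcon).1
    omega
  have hyr : y ∈ r := (mem_filter.mp hy).1
  have hyM : f y ∉ M := (mem_filter.mp hy).2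
  refine ⟨x, hxq, y, hyr, hyM, hxc, hyc, fun j hj => ⟨fun h => hxn ⟨j, hj, Or.inl h⟩,
    fun h => hxn ⟨j, hj, Or.inr h⟩⟩, fun j hj => ⟨?_, ?_⟩⟩
  · intro h
    exact hyM (h ▸ hq j hj)
  · intro h
    apply hyM
    have : f y = - f j := by rw [h, neg_neg]
    rw [this]
    exact M.neg_mem (hq j hj)

theorem thm_HfG : St_ClG → St_HfG := by
  intro hCl G ι _ _ a s f ha h0 hcap haper ho
  have hSw := Pool.Agent.SSX.all_SwX
  have key : ∀ (p r : Finset ι) (M : AddSubgroup G), Pool.Agent.SSX.Spl s p r f → M.index = 2 →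
      (∀ i ∈ p, f i ∈ M) →
      ∃ p' r' : Finset ι, Pool.Agent.SSX.Spl s p' r' f ∧ p'.card = p.card ∧ r'.card = r.card ∧
        HfG_n p' f < HfG_n p f ∧ HfG_n r' f ≤ HfG_n r f := by
    intro p r M hS hM hp
    obtain ⟨x, hx, y, hy, h1, h2, h3, h4, h5⟩ := HfG_exch hCl a s p r f M ha ho hS hM hp
    obtain ⟨g1, g2, g3, -, -⟩ := hSw.2 G ι s p r f x y hS hx hy h4 h5
    refine ⟨insert y (p.erase x), insert x (r.erase y), g1, g2, g3, ?_, ?_⟩
    · refine Set.ncard_lt_ncard ⟨HfG_sub p f x y h2, fun hsub => ?_⟩ (Set.toFinite _)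
      have h6 : M ∈ {M : AddSubgroup G | M.index = 2 ∧ ∀ i ∈ insert y (p.erase x), f i ∈ M} :=
        hsub ⟨hM, hp⟩
      exact h1 (h6.2 y (mem_insert_self _ _))
    · exact Set.ncard_le_ncard (HfG_sub r f y x h3) (Set.toFinite _)
  have main : ∀ (n : ℕ) (p r : Finset ι), Pool.Agent.SSX.Spl s p r f →
      p.card = (s.card + 1) / 2 → HfG_n p f + HfG_n r f = n →
      ∃ p r : Finset ι, Pool.Agent.SSX.Spl s p r f ∧ p.card = (s.card + 1) / 2 ∧
        ∀ M : AddSubgroup G, M.index = 2 → (∃ i ∈ p, f i ∉ M) ∧ ∃ i ∈ r, f i ∉ M := by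
    intro n
    induction n using Nat.strong_induction_on with
    | _ n ih =>
      intro p r hS hc hn
      by_cases hg : ∀ M : AddSubgroup G, M.index = 2 → (∃ i ∈ p, f i ∉ M) ∧ ∃ i ∈ r, f i ∉ M
      · exact ⟨p, r, hS, hc, hg⟩
      · push Not at hg
        obtain ⟨M, hM, hM2⟩ := hg
        by_cases hp : ∀ i ∈ p, f i ∈ M
        · obtain ⟨p', r', k1, k2, -, k4, k5⟩ := key p r M hS hM hp
          exact ih (HfG_n p' f + HfG_n r' f) (by omega) p' r' k1 (k2.trans hc) rfl
        · have hr : ∀ i ∈ r, f i ∈ M := by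
            push Not at hp
            exact hM2 hp
          obtain ⟨r', p', k1, -, k3, k4, k5⟩ := key r p M (HfG_sym hS) hM hr
          exact ih (HfG_n p' f + HfG_n r' f) (by omega) p' r' (HfG_sym k1) (k3.trans hc) rfl
  obtain ⟨p, r, hS, hc⟩ := hSw.1 G ι s f h0 hcap
  obtain ⟨s1, s2, hS', hc', hout⟩ := main _ p r hS hc rfl
  obtain ⟨hdis, hun, hA1, hA2, -, -⟩ := hS'
  have hcard : s1.card + s2.card = s.card := by
    rw [← card_union_of_disjoint hdis, hun]
  have h2 : ∀ i ∈ s, f i + f i ≠ 0 := fun i hi h =>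
    (SDG.all_Ba1 G ι f).2.2.2.2.1 s i hi haper (h0 i hi) (eq_neg_of_add_eq_zero_left h)
  refine ⟨s1, s2, hdis, hun, ⟨hA1, fun i hi => h2 i ?_⟩, ⟨hA2, fun i hi => h2 i ?_⟩, hc', by omega, hout⟩
  · rw [← hun]
    exact mem_union_left _ hi
  · rw [← hun]
    exact mem_union_right _ hi

end Pool.Agent.SZC
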