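import Pool.Agent.SZC.St

/-!
# SZC, module Ix2 (MP_ec93d3_co): the index of the subgroup of the doubles
-/

set_option autoImplicit false

noncomputable section

open Finset Pool.Agent.Helper64.Rho Pool.Agent.SDG Pool.Agent.MDR Pool.Agent.SSC Pool.Agent.SSE Pool.Agent.SZA
open scoped Classical Pointwise

namespace Pool.Agent.SZC

theorem thm_Ix2 : St_Ix2 := by
  intro G _ _
  have h1 : Nat.card (nsmulAddMonoidHom 2 : G →+ G).ker * (nsmulAddMonoidHom 2 : G →+ G).ker.index =
      Nat.card G := AddSubgroup.card_mul_index _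
  have h2 : Nat.card (nsmulAddMonoidHom 2 : G →+ G).range * (nsmulAddMonoidHom 2 : G →+ G).range.index =
      Nat.card G := AddSubgroup.card_mul_index _
  have h3 : (nsmulAddMonoidHom 2 : G →+ G).ker.index = Nat.card (nsmulAddMonoidHom 2 : G →+ G).range :=
    AddSubgroup.index_ker _
  rw [h3] at h1
  have h4 : 0 < Nat.card (nsmulAddMonoidHom 2 : G →+ G).range := Nat.card_pos
  have h5 : Nat.card (nsmulAddMonoidHom 2 : G →+ G).range * (nsmulAddMonoidHom 2 : G →+ G).range.index =
      Nat.card (nsmulAddMonoidHom 2 : G →+ G).range * Nat.card (nsmulAddMonoidHom 2 : G →+ G).ker := by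
    rw [h2, ← h1, mul_comm]
  have h6 := Nat.eq_of_mul_eq_mul_left h4 h5
  unfold Pool.Agent.SZA.PP
  rw [h6]
  exact Nat.card_congr (Equiv.subtypeEquivRight fun x => by
    rw [AddMonoidHom.mem_ker]
    rfl)

end Pool.Agent.SZC
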