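import Pool.Agent.SZC.St

/-!
# SZC: a quotient isomorphic to the elementary group of order nine
-/

set_option autoImplicit false

noncomputable section

open Finset Pool.Agent.Helper64.Rho Pool.Agent.SDG Pool.Agent.MDR Pool.Agent.SSC Pool.Agent.SSE Pool.Agent.SZA
open scoped Classical Pointwise

namespace Pool.Agent.SZC

private theorem K9_rank (Q : Type) [AddCommGroup Q] [Finite Q] (h3 : ∀ x : Q, (3 : ℕ) • x = 0)
    (hc : Nat.card Q = 9) : AddGroup.rank Q = 2 := by
  have hz : ∀ a : Q, Nat.card (AddSubgroup.zmultiples a) ≤ 3 := by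
    intro a
    rw [Nat.card_zmultiples]
    exact Nat.le_of_dvd (by norm_num) (addOrderOf_dvd_of_nsmul_eq_zero (h3 a))
  have hex : ∀ a : Q, ∃ b, b ∉ AddSubgroup.zmultiples a := by
    intro a
    by_contra hcon
    push Not at hcon
    have h1 : AddSubgroup.zmultiples a = ⊤ := by
      rw [AddSubgroup.eq_top_iff']
      exact hcon
    have h2 := hz a
    rw [h1, AddSubgroup.card_top, hc] at h2
    omega
  apply le_antisymm
  · obtain ⟨a, ha⟩ := hex 0
    obtain ⟨b, hb⟩ := hex a
    have ha0 : a ≠ 0 := by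
      rintro rfl
      exact ha (AddSubgroup.zero_mem _)
    have hle : AddSubgroup.zmultiples a ≤ AddSubgroup.closure ({a, b} : Set Q) := by
      rw [AddSubgroup.zmultiples_le]
      exact AddSubgroup.subset_closure (by simp)
    have hbm : b ∈ AddSubgroup.closure ({a, b} : Set Q) := AddSubgroup.subset_closure (by simp)
    have ho : Nat.card (AddSubgroup.zmultiples a) = 3 := by
      rw [Nat.card_zmultiples]
      exact addOrderOf_eq_prime (h3 a) ha0
    have hd1 : Nat.card (AddSubgroup.closure ({a, b} : Set Q)) ∣ 9 := by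
      rw [← hc]
      exact AddSubgroup.card_addSubgroup_dvd_card _
    have hd2 : 3 ∣ Nat.card (AddSubgroup.closure ({a, b} : Set Q)) := by
      rw [← ho]
      exact AddSubgroup.card_dvd_of_le hle
    have hne : Nat.card (AddSubgroup.closure ({a, b} : Set Q)) ≠ 3 := by
      intro h4
      have h5 : AddSubgroup.zmultiples a = AddSubgroup.closure ({a, b} : Set Q) :=
        AddSubgroup.eq_of_le_of_card_ge hle (by omega)
      rw [← h5] at hbm
      exact hb hbm
    have h9 : Nat.card (AddSubgroup.closure ({a, b} : Set Q)) = 9 := by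
      obtain ⟨k, hk⟩ := hd2
      have h6 : Nat.card (AddSubgroup.closure ({a, b} : Set Q)) ≤ 9 := Nat.le_of_dvd (by norm_num) hd1
      rw [hk] at hd1 hne h6 ⊢
      have h7 : k ≤ 3 := by omega
      interval_cases k <;> simp_all
    have htop : AddSubgroup.closure ({a, b} : Set Q) = ⊤ :=
      AddSubgroup.eq_top_of_card_eq _ (h9.trans hc.symm)
    have h8 : AddSubgroup.closure ((({a, b} : Finset Q)) : Set Q) = ⊤ := by
      rw [← htop]
      congr 1
      simp
    exact (AddGroup.rank_le h8).trans (Finset.card_le_two)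
  · by_contra hcon
    push Not at hcon
    obtain ⟨S, hS, hS2⟩ := AddGroup.rank_spec Q
    obtain ⟨a, ha⟩ : ∃ a : Q, S ⊆ {a} := by
      have h1 : S.card ≤ 1 := by omega
      rcases Finset.card_le_one_iff_subset_singleton.1 h1 with ⟨a, ha⟩
      exact ⟨a, ha⟩
    have h2 : AddSubgroup.zmultiples a = ⊤ := by
      rw [eq_top_iff, ← hS2, AddSubgroup.closure_le]
      intro x hx
      have h3 := ha hx
      rw [Finset.mem_singleton] at h3
      rw [h3]
      exact AddSubgroup.mem_zmultiples a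
    have h4 := hz a
    rw [h2, AddSubgroup.card_top, hc] at h4
    omega

private theorem K9_sub (G : Type) [AddCommGroup G] [Finite G]
    (h9 : 9 ∣ Nat.card {x : G // (3 : ℕ) • x = 0}) :
    ∃ H : AddSubgroup G, (∀ x : G, (3 : ℕ) • x ∈ H) ∧ Nat.card (G ⧸ H) = 9 := by
  obtain ⟨μ, hμ⟩ : ∃ μ : G →+ G, μ = nsmulAddMonoidHom 3 := ⟨_, rfl⟩
  have hμ' : ∀ x, μ x = (3 : ℕ) • x := by
    intro x
    rw [hμ]
    rfl
  have hker : Nat.card μ.ker = Nat.card {x : G // (3 : ℕ) • x = 0} := by
    apply Nat.card_congr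
    apply Equiv.subtypeEquivRight
    intro x
    rw [AddMonoidHom.mem_ker, hμ']
  have hV3 : ∀ v : G ⧸ μ.range, (3 : ℕ) • v = 0 := by
    intro v
    obtain ⟨x, rfl⟩ := QuotientAddGroup.mk_surjective v
    rw [← QuotientAddGroup.mk_nsmul, QuotientAddGroup.eq_zero_iff]
    exact ⟨x, hμ' x⟩
  have hVc : Nat.card (G ⧸ μ.range) = Nat.card μ.ker := by
    have h1 := AddSubgroup.card_eq_card_quotient_mul_card_addSubgroup μ.range
    have h2 := AddSubgroup.card_eq_card_quotient_mul_card_addSubgroup μ.ker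
    have h3 : Nat.card (G ⧸ μ.ker) = Nat.card μ.range :=
      Nat.card_congr (QuotientAddGroup.quotientKerEquivRange μ).toEquiv
    rw [h3] at h2
    have h4 : 0 < Nat.card μ.range := Nat.card_pos
    rw [h2, mul_comm] at h1
    exact (Nat.eq_of_mul_eq_mul_right h4 h1).symm
  letI : Module (ZMod 3) (G ⧸ μ.range) := AddCommGroup.zmodModule hV3
  haveI : Fact (Nat.Prime 3) := ⟨Nat.prime_three⟩
  haveI : Module.Finite (ZMod 3) (G ⧸ μ.range) := Module.Finite.of_finite
  have hfr : Nat.card (G ⧸ μ.range) = 3 ^ Module.finrank (ZMod 3) (G ⧸ μ.range) := by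
    have h1 := Module.natCard_eq_pow_finrank (K := ZMod 3) (V := G ⧸ μ.range)
    rw [Nat.card_zmod] at h1
    exact h1
  have h2 : 2 ≤ Module.finrank (ZMod 3) (G ⧸ μ.range) := by
    rw [← hker, ← hVc, hfr] at h9
    have h3 : (3 : ℕ) ^ 2 ∣ 3 ^ Module.finrank (ZMod 3) (G ⧸ μ.range) := by
      norm_num
      exact h9
    exact (Nat.pow_dvd_pow_iff_le_right (by norm_num)).1 h3
  obtain ⟨φ, hφ⟩ : ∃ φ : (G ⧸ μ.range) →ₗ[ZMod 3] (Fin 2 → ZMod 3), Function.Surjective φ := by
    refine ⟨(LinearMap.funLeft (ZMod 3) (ZMod 3) (Fin.castLE h2)).comp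
      (Module.finBasis (ZMod 3) (G ⧸ μ.range)).equivFun.toLinearMap, ?_⟩
    have h4 := LinearMap.funLeft_surjective_of_injective (ZMod 3) (ZMod 3) (Fin.castLE h2)
      (Fin.castLE_injective h2)
    exact h4.comp (Module.finBasis (ZMod 3) (G ⧸ μ.range)).equivFun.surjective
  obtain ⟨ψ, hψ⟩ : ∃ ψ : G →+ (Fin 2 → ZMod 3), Function.Surjective ψ :=
    ⟨φ.toAddMonoidHom.comp (QuotientAddGroup.mk' μ.range),
      hφ.comp (QuotientAddGroup.mk'_surjective _)⟩
  refine ⟨ψ.ker, ?_, ?_⟩
  · intro x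
    rw [AddMonoidHom.mem_ker, map_nsmul]
    ext i
    simp only [Pi.smul_apply, Pi.zero_apply, nsmul_eq_mul]
    have : ((3 : ℕ) : ZMod 3) = 0 := ZMod.natCast_self 3
    rw [this, zero_mul]
  · rw [Nat.card_congr (QuotientAddGroup.quotientKerEquivOfSurjective ψ hψ).toEquiv]
    simp

theorem thm_K9 : St_K9 := by
  intro G _ _ h9
  obtain ⟨H, hH3, hH9⟩ := K9_sub G h9
  have hcrk : crk H = 2 := by
    apply K9_rank (G ⧸ H) _ hH9
    intro v
    obtain ⟨x, rfl⟩ := QuotientAddGroup.mk_surjective v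
    rw [← QuotientAddGroup.mk_nsmul, QuotientAddGroup.eq_zero_iff]
    exact hH3 x
  refine ⟨H, ?_, ?_, ?_⟩
  · rintro rfl
    have h1 : Nat.card (G ⧸ (⊤ : AddSubgroup G)) = 1 := by
      have : Subsingleton (G ⧸ (⊤ : AddSubgroup G)) := QuotientAddGroup.subsingleton_quotient_top
      exact Nat.card_unique
    omega
  · rw [AddSubgroup.card_eq_card_quotient_mul_card_addSubgroup H, hH9]
  · intro m hm
    unfold Pool.Agent.SNR.valr
    rw [hcrk, Nat.max_eq_left (by omega)]
    have : cf (2 * Nat.card H) 1 = 2 := by simp [cf]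
    rw [this]
    ring

end Pool.Agent.SZC
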