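import Pool.Agent.SZC.St

/-!
# SZC: when some value is small
-/

set_option autoImplicit false

noncomputable section

open Finset Pool.Agent.Helper64.Rho Pool.Agent.SDG Pool.Agent.MDR Pool.Agent.SSC Pool.Agent.SSE Pool.Agent.SZA
open scoped Classical Pointwise

namespace Pool.Agent.SZC

private theorem Kd_cf (g : ℕ) : cf g 1 = 2 := by
  simp [cf]

theorem thm_Kd : St_Kq → St_K9 → St_Nf0 → St_Kd := by
  intro hKq hK9 hNf G _ _ A hn hA
  obtain ⟨-, h2, h3, h4, -, -⟩ := hNf G A hn hA
  have H1 : ∀ q : ℕ, 4 ≤ q → q ∣ AddMonoid.exponent G → Dn A ∨ Nat.card G + q ≤ q * A.card := by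
    intro q hq hd
    obtain ⟨H, hH, hc, hv⟩ := hKq G q (by omega) hd
    rcases Nat.lt_or_ge (Nat.card H) A.card with ht | ht
    · right
      have h5 : q * (Nat.card H + 1) ≤ q * A.card := Nat.mul_le_mul_left q ht
      have h6 : q * (Nat.card H + 1) = q * Nat.card H + q := by ring
      omega
    · left
      refine ⟨H, hH, ?_⟩
      rw [hv, Nat.max_eq_left (by omega), Kd_cf]
      have h5 : 4 * Nat.card H ≤ q * Nat.card H := Nat.mul_le_mul_right _ hq
      omega
  have H3 : 3 ∣ AddMonoid.exponent G → 21 ≤ Nat.card G →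
      Dn A ∨ 3 * (FS A id).card + 1 ≤ 2 * Nat.card G := by
    intro hd h21
    obtain ⟨H, hH, hc, hv⟩ := hKq G 3 (by omega) hd
    rcases Nat.lt_or_ge (Nat.card H) A.card with ht | ht
    · exfalso
      have h5 : Nat.card G + 6 ≤ 3 * (A.card + 1) := by omega
      have h6 : (Nat.card G + 6) ^ 2 ≤ (3 * (A.card + 1)) ^ 2 := Nat.pow_le_pow_left h5 2
      have h7 : (A.card + 1) ^ 2 + 5 ≤ 4 * Nat.card G := by omega
      nlinarith
    · by_cases h5 : 2 * Nat.card H ≤ (FS A id).card
      · left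
        refine ⟨H, hH, ?_⟩
        rw [hv, Nat.max_eq_left (by omega), Kd_cf]
        omega
      · right
        omega
  refine ⟨H1, ?_, H3, ?_, ?_⟩
  · intro q hq hd hqn
    rcases H1 q hq hd with h5 | h5
    · exact h5
    · exfalso
      have h6 : Nat.card G + 2 * q ≤ q * (A.card + 1) := by
        have : q * (A.card + 1) = q * A.card + q := by ring
        omega
      have h7 : (Nat.card G + 2 * q) ^ 2 ≤ (q * (A.card + 1)) ^ 2 := Nat.pow_le_pow_left h6 2
      have h8 : (A.card + 1) ^ 2 + 5 ≤ 4 * Nat.card G := by omega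
      have h9 : q ^ 2 * ((A.card + 1) ^ 2 + 5) ≤ q ^ 2 * (4 * Nat.card G) := Nat.mul_le_mul_left _ h8
      have h10 : Nat.card G * (4 * q ^ 2) ≤ Nat.card G * Nat.card G := Nat.mul_le_mul_left _ hqn
      have h11 : 0 < q ^ 2 := by positivity
      nlinarith
  · intro hd h72
    rcases H1 6 (by omega) hd with h5 | h5
    · exact h5
    rcases H3 (Dvd.dvd.trans (by norm_num) hd) (by omega) with h6 | h6
    · exact h6
    exfalso
    have h7 : Nat.card G + 12 ≤ 6 * (A.card + 1) := by omega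
    have h8 : (Nat.card G + 12) ^ 2 ≤ (6 * (A.card + 1)) ^ 2 := Nat.pow_le_pow_left h7 2
    nlinarith
  · intro hd
    obtain ⟨H, hH, hc, hv⟩ := hK9 G hd
    rcases Nat.lt_or_ge (Nat.card H + 1) A.card with ht | ht
    · right
      omega
    · left
      refine ⟨H, hH, ?_⟩
      rw [hv _ ht]
      omega

end Pool.Agent.SZC
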