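import Pool.Agent.SZC.St
import Pool.Agent.SNW.F1

/-!
# SZC, module L1 (helper97): aperiodic sums of level exactly one

If `2 l0 G ≤ |T|` (`l0 G = |G| / exp G` is the least order of a subgroup with cyclic quotient), `T = FS A id` aperiodic, then
the number of sums is at least the value of a subgroup, or `G = Z_2^2 × Z_4`, `|A| = 6`, `|T| = 15`.
-/

set_option autoImplicit false

noncomputable section

open Finset Pool.Agent.Helper64.Rho
open scoped Classical Pointwise

namespace Pool.Agent.SZC

open Pool.Agent.SDG Pool.Agent.SNW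

private theorem L1_pn (t l : ℕ) (h2 : 2 ≤ l) (hl : l + 1 ≤ t) : cf 2 t + l ≤ pn t + 1 := by
  have h : cf 2 t + (t - 2) ≤ pn t := by
    rcases Nat.lt_or_ge t 5 with h5 | h5
    · have : t = 3 ∨ t = 4 := by omega
      rcases this with rfl | rfl <;> simp [pn, cf, Finset.sum_range_succ]
    · have := W2_pn t (by omega) (by omega) (by omega)
      omega
  omega

theorem thm_L1 (hKq : St_Kq) (G : Type) [AddCommGroup G] [Finite G] (hc : ¬ IsAddCyclic G)
    (hM : M1P G (l0 G - 1)) (hN : NF3 G) (A : Finset G) (h0 : (0 : G) ∉ A)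
    (hgen : AddSubgroup.closure (A : Set G) = ⊤) (hAp : Aper (FS A id)) (h2 : 2 * l0 G ≤ (FS A id).card) :
    Dn A ∨ (Nat.card G = 16 ∧ AddMonoid.exponent G = 4 ∧ A.card = 6 ∧ (FS A id).card = 15) := by
  have he : 2 ≤ AddMonoid.exponent G := by
    have h1 : AddMonoid.exponent G ≠ 0 := AddMonoid.exponent_ne_zero_of_finite
    have h3 : AddMonoid.exponent G ≠ 1 := by
      intro h3
      rw [AddMonoid.exp_eq_one_iff] at h3
      exact hc isAddCyclic_of_subsingleton
    omega
  obtain ⟨H, hH, hcard, hval⟩ := hKq G (AddMonoid.exponent G) he dvd_rfl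
  have hl0 : Nat.card H = l0 G := by
    unfold l0
    rw [hcard, Nat.mul_div_cancel_left _ (by omega)]
  rw [hl0] at hval
  have hl1 : 1 ≤ l0 G := by
    rw [← hl0]
    exact Nat.card_pos
  have hl2 : 2 ≤ l0 G := by
    rcases Nat.lt_or_ge (l0 G) 2 with h3 | h3
    · exfalso
      apply hc
      have h4 : Nat.card H = 1 := by omega
      rw [h4, mul_one] at hcard
      exact IsAddCyclic.of_exponent_eq_card hcard.symm
    · exact h3
  rcases hM G A id (fun i hi h1 => h0 (by rw [← show (id i : G) = 0 from h1]; exact hi))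
    (cap_id A) hAp (by rw [gen_id]; exact hgen) with h1 | h1
  · left
    refine ⟨H, hH, ?_⟩
    rw [hval]
    rcases Nat.lt_or_ge (l0 G) A.card with h4 | h4
    · have h5 : max 1 (A.card + 1 - l0 G) = A.card + 1 - l0 G := by omega
      have h6 := W2_upper 1 (l0 G) A.card le_rfl hl1 (by omega)
      rw [one_mul, mul_one] at h6
      rw [h5]
      rcases min_le_iff.1 h1 with h7 | h7
      · have h8 := L1_pn A.card (l0 G) hl2 (by omega)
        omega
      · omega
    · have h5 : max 1 (A.card + 1 - l0 G) = 1 := by omega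
      have h6 : cf (2 * l0 G) 1 = 2 := by simp [cf]
      rw [h5, h6]
      omega
  · exact hN A ⟨h0, hgen, hAp, h1⟩

end Pool.Agent.SZC
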