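import Pool.Agent.SZC.St
import Pool.Agent.SSX.Main

/-!
# SZC Nf0 (MP_ec93d3_co; helper46)
-/

set_option autoImplicit false

noncomputable section

open Finset Pool.Agent.Helper64.Rho Pool.Agent.SDG
open scoped Classical Pointwise

namespace Pool.Agent.SZC

theorem thm_Nf0 : St_Nf0 := by
  intro G _ _ A hG hA
  obtain ⟨h0, hgen, hap, hnf⟩ := hA
  have hcf : cf 2 A.card ≤ (FS A id).card := by
    refine Pool.Agent.SSX.PAG_all G G A id (fun i hi h => h0 ?_) (Pool.Agent.SNW.cap_id A) hap
    have h' : i = 0 := h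
    rwa [h'] at hi
  have hcl : cf 2 A.card = 1 + (A.card + 1) ^ 2 / 4 := all_Nm1.2.2.1 A.card
  have hT : (FS A id).card + 1 ≤ Nat.card G := by
    have hf : Fintype G := Fintype.ofFinite G
    have h1 : (FS A id).card ≤ Nat.card G := by
      rw [Nat.card_eq_fintype_card]
      exact card_le_univ _
    rcases Nat.lt_or_ge (FS A id).card (Nat.card G) with h2 | h2
    · exact h2
    · exfalso
      have h3 : FS A id = univ := by
        rw [← card_eq_iff_eq_univ, ← Nat.card_eq_fintype_card]
        exact le_antisymm h1 h2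
      have h4 : ∀ g : G, g = 0 := fun g => hap g fun x _ => by
        rw [h3]
        exact mem_univ _
      have h5 : Nat.card G ≤ 1 := by
        have : Subsingleton G := ⟨fun a b => (h4 a).trans (h4 b).symm⟩
        exact Finite.card_le_one_iff_subsingleton.2 this
      omega
  refine ⟨hcf, hT, ?_, ?_, ?_, ?_⟩
  · have h1 : jj A.card * (jj A.card - 1) + 1 ≤ cf 2 A.card := by
      rw [hcl]
      have h2 : jj A.card * (jj A.card - 1) ≤ (A.card + 1) ^ 2 / 4 := by
        rw [Nat.le_div_iff_mul_le (by norm_num)]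
        have h3 : 2 * jj A.card ≤ A.card + 1 := by
          unfold jj
          omega
        have h4 : jj A.card - 1 ≤ jj A.card := Nat.sub_le _ _
        calc jj A.card * (jj A.card - 1) * 4 ≤ jj A.card * jj A.card * 4 :=
              Nat.mul_le_mul_right _ (Nat.mul_le_mul_left _ h4)
          _ = (2 * jj A.card) ^ 2 := by ring
          _ ≤ (A.card + 1) ^ 2 := Nat.pow_le_pow_left h3 2
      omega
    omega
  · rw [hcl] at hcf
    have h1 : (A.card + 1) ^ 2 ≤ 4 * ((A.card + 1) ^ 2 / 4) + 3 := by
      have := Nat.div_add_mod ((A.card + 1) ^ 2) 4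
      have h2 := Nat.mod_lt ((A.card + 1) ^ 2) (by norm_num : 4 > 0)
      omega
    omega
  · rcases Nat.eq_zero_or_pos A.card with h1 | h1
    · exfalso
      rw [card_eq_zero] at h1
      rw [h1, coe_empty, AddSubgroup.closure_empty] at hgen
      have h2 : Nat.card (⊥ : AddSubgroup G) = Nat.card (⊤ : AddSubgroup G) := by rw [hgen]
      rw [AddSubgroup.card_bot, AddSubgroup.card_top] at h2
      omega
    · exact h1
  · intro a ha h1
    have h2 := (all_Ba1 G G id).2.2.2.2.1 A a ha hap (fun h => h0 (by
      have h' : a = 0 := h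
      rwa [h'] at ha))
    exact h2 (eq_neg_of_add_eq_zero_left h1)

end Pool.Agent.SZC
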