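import Pool.Agent.SZC.St
import Pool.Agent.SSX.Main
import Pool.Agent.SNW.Lo2

/-!
# SZC: ten elements, sixteen cosets of the doubles
-/

set_option autoImplicit false

noncomputable section

open Finset Pool.Agent.Helper64.Rho Pool.Agent.SDG Pool.Agent.MDR Pool.Agent.SSC Pool.Agent.SSE Pool.Agent.SZA
open scoped Classical Pointwise

namespace Pool.Agent.SZC

theorem thm_S10 : St_W4 → St_S10 := by
  intro hW4 G _ _ A hP h0 hcl hap hA
  obtain ⟨b1, b2, -, -, b5, -, -⟩ := all_Ba1 G G (id : G → G)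
  obtain ⟨k1, -, -, -⟩ := all_Kn G
  obtain ⟨w, hwA, hw, hw2⟩ := hW4 G G 4 A id (by rw [hP]; norm_num) (by rw [Pool.Agent.SNW.gen_id]; exact hcl)
    (fun i hi h => b5 A i hi hap (fun h' => h0 (h' ▸ hi)) (eq_neg_of_add_eq_zero_left h)) (by omega)
  have hdis : Disjoint w (A \ w) := disjoint_sdiff
  have hun : w ∪ (A \ w) = A := union_sdiff_of_subset hwA
  have hc : (A \ w).card = 5 := by
    have := card_sdiff_add_card_eq_card hwA
    omega
  have hap2 : Aper (FS (A \ w) (id : G → G)) := b2 A (A \ w) sdiff_subset hap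
  have h10 := Pool.Agent.SSX.PAG_all G G (A \ w) id
    (fun i hi h => h0 (h ▸ (mem_sdiff.mp hi).1)) (Pool.Agent.SNW.cap_id _) hap2
  rw [hc] at h10
  have hcf : cf 2 5 = 10 := by decide
  rw [hcf] at h10
  have hs : FS A (id : G → G) = FS w id + FS (A \ w) id := by
    rw [← b1 w (A \ w) hdis, hun]
  have hk := k1 (FS w id) (FS (A \ w) id) ⟨0, zero_mem_FS _ _⟩ ⟨0, zero_mem_FS _ _⟩ (by rw [← hs]; exact hap)
  rw [← hs] at hk
  omega

end Pool.Agent.SZC
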