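import Pool.Agent.SZC.St
import Pool.Agent.SSX.Main

/-!
# SZC S16: the group `Z_2^2 × Z_4` (offer 16835, helper66)
-/

set_option autoImplicit false

noncomputable section

open Finset Pool.Agent.Helper64.Rho Pool.Agent.SDG Pool.Agent.MDR Pool.Agent.SSC Pool.Agent.SSE Pool.Agent.SZA
open scoped Classical Pointwise

namespace Pool.Agent.SZC

/-- the elements of `X` are in different classes modulo `K`, and these classes form a group -/
private def S16_Ind {G : Type} [AddCommGroup G] (K : AddSubgroup G) (X : Finset G) : Prop :=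
  (∀ x ∈ X, ∀ x' ∈ X, ∃ z ∈ X, x - x' - z ∈ K) ∧ ∀ x ∈ X, ∀ x' ∈ X, x - x' ∈ K → x = x'

private lemma S16_step {G : Type} [AddCommGroup G] {K : AddSubgroup G} (hK : ∀ y : G, y + y ∈ K)
    {X : Finset G} (hX : S16_Ind K X) {y : G} (hy : ∀ z ∈ X, z + y ∉ K) :
    S16_Ind K (X ∪ X.image (· + y)) ∧ (X ∪ X.image (· + y)).card = 2 * X.card := by
  obtain ⟨h1, h2⟩ := hX
  have h3 : ∀ x ∈ X, ∀ x' ∈ X, x + y - x' ∉ K := by
    intro x hx x' hx' hc
    obtain ⟨z, hz, hzK⟩ := h1 x hx x' hx'
    apply hy z hz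
    have := K.sub_mem hc hzK
    have e : x + y - x' - (x - x' - z) = z + y := by abel
    rwa [e] at this
  have h4 : ∀ x ∈ X, ∀ x' ∈ X, x - (x' + y) ∉ K := by
    intro x hx x' hx' hc
    apply h3 x' hx' x hx
    have := K.neg_mem hc
    have e : -(x - (x' + y)) = x' + y - x := by abel
    rwa [e] at this
  refine ⟨⟨?_, ?_⟩, ?_⟩
  · intro x hx x' hx'
    rcases mem_union.1 hx with hx | hx <;> rcases mem_union.1 hx' with hx' | hx'
    · obtain ⟨z, hz, hzK⟩ := h1 x hx x' hx'
      exact ⟨z, mem_union_left _ hz, hzK⟩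
    · obtain ⟨w', hw', rfl⟩ := mem_image.1 hx'
      obtain ⟨z, hz, hzK⟩ := h1 x hx w' hw'
      refine ⟨z + y, mem_union_right _ (mem_image_of_mem _ hz), ?_⟩
      have := K.sub_mem hzK (hK y)
      have e : x - w' - z - (y + y) = x - (w' + y) - (z + y) := by abel
      rwa [e] at this
    · obtain ⟨w, hw, rfl⟩ := mem_image.1 hx
      obtain ⟨z, hz, hzK⟩ := h1 w hw x' hx'
      refine ⟨z + y, mem_union_right _ (mem_image_of_mem _ hz), ?_⟩
      have e : w + y - x' - (z + y) = w - x' - z := by abel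
      show w + y - x' - (z + y) ∈ K
      rwa [e]
    · obtain ⟨w, hw, rfl⟩ := mem_image.1 hx
      obtain ⟨w', hw', rfl⟩ := mem_image.1 hx'
      obtain ⟨z, hz, hzK⟩ := h1 w hw w' hw'
      refine ⟨z, mem_union_left _ hz, ?_⟩
      have e : w + y - (w' + y) - z = w - w' - z := by abel
      show w + y - (w' + y) - z ∈ K
      rwa [e]
  · intro x hx x' hx' hc
    rcases mem_union.1 hx with hx | hx <;> rcases mem_union.1 hx' with hx' | hx'
    · exact h2 x hx x' hx' hc
    · obtain ⟨w', hw', rfl⟩ := mem_image.1 hx'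
      exact absurd hc (h4 x hx w' hw')
    · obtain ⟨w, hw, rfl⟩ := mem_image.1 hx
      exact absurd hc (h3 w hw x' hx')
    · obtain ⟨w, hw, rfl⟩ := mem_image.1 hx
      obtain ⟨w', hw', rfl⟩ := mem_image.1 hx'
      have e : w + y - (w' + y) = w - w' := by abel
      have hc' : w + y - (w' + y) ∈ K := hc
      rw [e] at hc'
      show w + y = w' + y
      rw [h2 w hw w' hw' hc']
  · rw [card_union_of_disjoint, card_image_of_injective _ (add_left_injective y)]
    · omega
    · rw [disjoint_left]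
      intro x hx hx'
      obtain ⟨w', hw', rfl⟩ := mem_image.1 hx'
      refine h4 (w' + y) hx w' hw' ?_
      show w' + y - (w' + y) ∈ K
      rw [sub_self]
      exact K.zero_mem

private lemma S16_zero {G : Type} [AddCommGroup G] (K : AddSubgroup G) : S16_Ind K ({0} : Finset G) := by
  refine ⟨?_, ?_⟩
  · intro x hx x' hx'
    rw [mem_singleton] at hx hx'
    subst hx
    subst hx'
    exact ⟨0, mem_singleton_self _, by simp⟩
  · intro x hx x' hx' _
    rw [mem_singleton] at hx hx'
    rw [hx, hx']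

theorem thm_S16 : St_Ix2 → St_Tv → St_W4 → St_S16 := by
  intro Ix2 Tv W4 G _ _ A hG hG2 h0 hgen hAp
  obtain ⟨hS, -, -, -, hinv, -, -⟩ := SDG.all_Ba1 G G (id : G → G)
  obtain ⟨K1, -, -, -⟩ := SDG.all_Kn G
  have hgen' : gen A (id : G → G) = ⊤ := by
    unfold gen
    rw [Set.image_id]
    exact hgen
  have hix : (PP G).index = 8 := by rw [Ix2 G, hG2]
  have hcard : Nat.card (PP G) = 2 := by
    have := (PP G).card_mul_index
    rw [hix, hG] at this
    omega
  have hne : ∀ a ∈ A, a ≠ 0 := fun a ha h => h0 (h ▸ ha)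
  have hneg : ∀ a ∈ A, a ≠ -a := fun a ha => hinv A a ha hAp (hne a ha)
  have h2 : ∀ a ∈ A, a + a ≠ 0 := by
    intro a ha h
    exact hneg a ha (eq_neg_of_add_eq_zero_left h)
  have hdbl : ∀ x : G, x + x ∈ PP G := by
    intro x
    exact ⟨x, by simp [two_nsmul]⟩
  refine ⟨fun ht => ?_, fun ht => ?_⟩
  · obtain ⟨w, hw, hwc, hw3⟩ := W4 G G 3 A (id : G → G) (by rw [hix]; norm_num) hgen' h2 (by omega)
    have := card_le_card (FS_mono hw (id : G → G))
    omega
  -- six members
  obtain ⟨a₀, ha₀⟩ : A.Nonempty := card_pos.1 (by omega)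
  obtain ⟨ω, hω⟩ : ∃ ω : G, ω = a₀ + a₀ := ⟨_, rfl⟩
  have hω0 : ω ≠ 0 := by
    rw [hω]
    exact h2 a₀ ha₀
  have hP : ∀ z ∈ PP G, z = 0 ∨ z = ω := by
    intro z hz
    by_contra hcon
    push Not at hcon
    have h3 : ({⟨0, (PP G).zero_mem⟩, ⟨ω, by rw [hω]; exact hdbl a₀⟩, ⟨z, hz⟩} : Finset (PP G)).card ≤ Nat.card (PP G) := by
      have : Fintype (PP G) := Fintype.ofFinite _
      rw [Nat.card_eq_fintype_card]
      exact card_le_univ _
    rw [hcard, card_insert_of_notMem, card_insert_of_notMem, card_singleton] at h3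
    · omega
    · simp only [mem_singleton, Subtype.mk.injEq]
      exact fun h => hcon.2 h.symm
    · simp only [mem_insert, mem_singleton, Subtype.mk.injEq, not_or]
      exact ⟨fun h => hω0 h.symm, fun h => hcon.1 h.symm⟩
  have hωω : ω + ω = 0 := by
    rcases hP _ (hdbl ω) with h | h
    · exact h
    · exfalso
      exact hω0 (by simpa using h)
  have hAω : ∀ a ∈ A, a + a = ω := by
    intro a ha
    rcases hP _ (hdbl a) with h | h
    · exact absurd h (h2 a ha)
    · exact h
  have hodd : ∀ z : G, z + z = ω → z ∉ PP G := by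
    intro z hz hzP
    rcases hP z hzP with h | h
    · rw [h, add_zero] at hz
      exact hω0 hz.symm
    · rw [h, hωω] at hz
      exact hω0 hz.symm
  have htwo : ∀ x y : G, y + y = ω → x ≠ y → x ≠ -y → x + y ∉ PP G := by
    intro x y hy h3 h4 h5
    rcases hP _ h5 with h | h
    · exact h4 (eq_neg_of_add_eq_zero_left h)
    · rw [← hy] at h
      exact h3 (add_right_cancel h)
  -- the set of the halves of `ω`
  obtain ⟨O, hO⟩ : ∃ O : Finset G, ∀ x, x ∈ O ↔ x + x = ω :=
    ⟨(Set.toFinite {x : G | x + x = ω}).toFinset, fun x => by simp⟩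
  have hOc : O.card ≤ 8 := by
    rw [← hG2]
    have : Fintype {x : G // (2 : ℕ) • x = 0} := Fintype.ofFinite _
    rw [Nat.card_eq_fintype_card, ← card_univ]
    have hmem : ∀ x ∈ O, (2 : ℕ) • (x - a₀) = 0 := by
      intro x hx
      rw [two_nsmul]
      have e : x - a₀ + (x - a₀) = (x + x) - (a₀ + a₀) := by abel
      rw [e, (hO x).1 hx, hω, sub_self]
    refine card_le_card_of_injOn (fun x => if h : (2 : ℕ) • (x - a₀) = 0 then ⟨x - a₀, h⟩ else ⟨0, by simp⟩)
      (fun x _ => mem_coe.2 (mem_univ _)) ?_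
    intro x hx y hy hxy
    have hx' := hmem x (mem_coe.1 hx)
    have hy' := hmem y (mem_coe.1 hy)
    simp only [dif_pos hx', dif_pos hy', Subtype.mk.injEq] at hxy
    exact sub_left_injective hxy
  have hAO : A ⊆ O := fun a ha => (hO a).2 (hAω a ha)
  have hA2 : (A.filter fun a => -a ∉ A).card ≤ 2 := by
    have h3 : (A.filter fun a => -a ∉ A).image (fun a => -a) ⊆ O \ A := by
      intro z hz
      obtain ⟨a, ha, rfl⟩ := mem_image.1 hz
      rw [mem_filter] at ha
      rw [mem_sdiff, hO]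
      refine ⟨?_, ha.2⟩
      have h4 := hAω a ha.1
      have e : -a + -a = -(a + a) := by abel
      rw [e, h4]
      exact neg_eq_of_add_eq_zero_left hωω
    have h4 := card_le_card h3
    rw [card_image_of_injective _ neg_injective, card_sdiff_of_subset hAO] at h4
    omega
  have hA1 : 4 ≤ (A.filter fun a => -a ∈ A).card := by
    have := card_filter_add_card_filter_not (s := A) (fun a => -a ∈ A)
    omega
  obtain ⟨x₁, hx₁⟩ : (A.filter fun a => -a ∈ A).Nonempty := card_pos.1 (by omega)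
  obtain ⟨x₂, hx₂⟩ : (((A.filter fun a => -a ∈ A).erase x₁).erase (-x₁)).Nonempty := by
    apply card_pos.1
    have h3 := pred_card_le_card_erase (s := A.filter fun a => -a ∈ A) (a := x₁)
    have h4 := pred_card_le_card_erase (s := (A.filter fun a => -a ∈ A).erase x₁) (a := -x₁)
    omega
  simp only [mem_erase, mem_filter] at hx₁ hx₂
  obtain ⟨hx₁A, hn₁⟩ := hx₁
  obtain ⟨h21', h21, hx₂A, hn₂⟩ := hx₂
  have h11 := hneg x₁ hx₁A
  have h22 := hneg x₂ hx₂A
  have h12' : x₁ ≠ -x₂ := fun h => h21' (by rw [h, neg_neg])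
  have h12n : -x₁ ≠ -x₂ := fun h => h21 (neg_injective h).symm
  have hres : ((((A.erase x₁).erase (-x₁)).erase x₂).erase (-x₂)).card = 2 := by
    rw [card_erase_of_mem, card_erase_of_mem, card_erase_of_mem, card_erase_of_mem hx₁A, ht]
    · exact mem_erase.2 ⟨fun h => h11 h.symm, hn₁⟩
    · exact mem_erase.2 ⟨h21', mem_erase.2 ⟨h21, hx₂A⟩⟩
    · exact mem_erase.2 ⟨fun h => h22 h.symm, mem_erase.2 ⟨fun h => h12n h.symm,
        mem_erase.2 ⟨fun h => h12' h.symm, hn₂⟩⟩⟩
  obtain ⟨u, v, huv, hRest⟩ := card_eq_two.1 hres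
  have hmemR : ∀ z, z ∈ ({u, v} : Finset G) ↔ z ≠ -x₂ ∧ z ≠ x₂ ∧ z ≠ -x₁ ∧ z ≠ x₁ ∧ z ∈ A := by
    intro z
    rw [← hRest]
    simp only [mem_erase]
  obtain ⟨u1, u2, u3, u4, huA⟩ := (hmemR u).1 (by simp)
  obtain ⟨v1, v2, v3, v4, hvA⟩ := (hmemR v).1 (by simp)
  -- the sums of `x₁, x₂, u`
  have s1 := S16_step hdbl (S16_zero (PP G)) (y := x₁) (by
    intro z hz
    rw [mem_singleton] at hz
    rw [hz, zero_add]
    exact hodd _ (hAω _ hx₁A))
  have s2 := S16_step hdbl s1.1 (y := x₂) (by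
    intro z hz
    simp only [image_singleton, zero_add, mem_union, mem_singleton] at hz
    rcases hz with rfl | rfl
    · rw [zero_add]
      exact hodd _ (hAω _ hx₂A)
    · exact htwo _ _ (hAω _ hx₂A) (fun h => h21 h.symm) h12')
  have s3 := S16_step hdbl s2.1 (y := u) (by
    intro z hz
    simp only [image_singleton, zero_add, mem_union, mem_singleton, image_union] at hz
    rcases hz with (rfl | rfl) | (rfl | rfl)
    · rw [zero_add]
      exact hodd _ (hAω _ huA)
    · exact htwo _ _ (hAω _ huA) (fun h => u4 h.symm) (fun h => u3 (by rw [h, neg_neg]))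
    · exact htwo _ _ (hAω _ huA) (fun h => u2 h.symm) (fun h => u1 (by rw [h, neg_neg]))
    · apply hodd
      have e : x₁ + x₂ + u + (x₁ + x₂ + u) = (x₁ + x₁) + (x₂ + x₂) + (u + u) := by abel
      rw [e, hAω _ hx₁A, hAω _ hx₂A, hAω _ huA, hωω, zero_add])
  have r1 := S16_step hdbl (S16_zero (PP G)) (y := -x₁) (by
    intro z hz
    rw [mem_singleton] at hz
    rw [hz, zero_add]
    exact hodd _ (hAω _ hn₁))
  have r2 := S16_step hdbl r1.1 (y := -x₂) (by
    intro z hz
    simp only [image_singleton, zero_add, mem_union, mem_singleton] at hz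
    rcases hz with rfl | rfl
    · rw [zero_add]
      exact hodd _ (hAω _ hn₂)
    · exact htwo _ _ (hAω _ hn₂) h12n (fun h => h21' (by rw [neg_neg] at h; exact h.symm)))
  have f1 : FS (insert x₁ ∅) (id : G → G) = {0} ∪ ({0} : Finset G).image (· + x₁) := by
    rw [FS_insert (by simp), FS_empty]
    rfl
  have f2 : FS (insert x₂ (insert x₁ ∅)) (id : G → G) =
      FS (insert x₁ ∅) id ∪ (FS (insert x₁ ∅) id).image (· + x₂) := by
    rw [FS_insert (by simpa using h21)]
    rfl
  have f3 : FS (insert u (insert x₂ (insert x₁ ∅))) (id : G → G) =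
      FS (insert x₂ (insert x₁ ∅)) id ∪ (FS (insert x₂ (insert x₁ ∅)) id).image (· + u) := by
    rw [FS_insert (by simpa using ⟨u2, u4⟩)]
    rfl
  have f4 : (FS (insert v (insert u (insert x₂ (insert x₁ ∅)))) (id : G → G)).card =
      (FS (insert u (insert x₂ (insert x₁ ∅))) (id : G → G)).card +
        lam (FS (insert u (insert x₂ (insert x₁ ∅))) (id : G → G)) v := by
    rw [FS_insert (by simpa using ⟨fun h => huv h.symm, v2, v4⟩)]
    exact card_union_shift _ _
  have g1 : FS (insert (-x₁) ∅) (id : G → G) = {0} ∪ ({0} : Finset G).image (· + -x₁) := by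
    rw [FS_insert (by simp), FS_empty]
    rfl
  have g2 : FS (insert (-x₂) (insert (-x₁) ∅)) (id : G → G) =
      FS (insert (-x₁) ∅) id ∪ (FS (insert (-x₁) ∅) id).image (· + -x₂) := by
    rw [FS_insert (by simpa using h21)]
    rfl
  rw [← f1, ← f2, ← f3] at s3
  rw [← f1, ← f2] at s2
  rw [← f1] at s1
  rw [← g1, ← g2] at r2
  rw [← g1] at r1
  have c3 : (FS (insert u (insert x₂ (insert x₁ ∅))) (id : G → G)).card = 8 := by
    rw [s3.2, s2.2, s1.2, card_singleton]
  have d2 : (FS (insert (-x₂) (insert (-x₁) ∅)) (id : G → G)).card = 4 := by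
    rw [r2.2, r1.2, card_singleton]
  have hTv := Tv G _ (PP G) v s3.1.2 (hdbl v) (h2 v hvA)
  -- the whole set
  have hd : Disjoint (insert v (insert u (insert x₂ (insert x₁ (∅ : Finset G)))))
      (insert (-x₂) (insert (-x₁) (∅ : Finset G))) := by
    rw [disjoint_left]
    intro z hz hz'
    simp only [insert_empty_eq, mem_insert, mem_singleton] at hz hz'
    rcases hz' with h5 | h5 <;> rcases hz with h | h | h | h <;> rw [h5] at h
    · exact v1 h.symm
    · exact u1 h.symm
    · exact h22 h.symm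
    · exact h12' h.symm
    · exact v3 h.symm
    · exact u3 h.symm
    · exact h21' h.symm
    · exact h11 h.symm
  have hA : insert v (insert u (insert x₂ (insert x₁ (∅ : Finset G)))) ∪
      insert (-x₂) (insert (-x₁) (∅ : Finset G)) = A := by
    ext z
    have h3 := hmemR z
    simp only [mem_insert, mem_singleton] at h3
    simp only [insert_empty_eq, mem_union, mem_insert, mem_singleton]
    constructor
    · rintro ((rfl | rfl | rfl | rfl) | rfl | rfl)
      · exact hvA
      · exact huA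
      · exact hx₂A
      · exact hx₁A
      · exact hn₂
      · exact hn₁
    · intro hz
      by_contra hcon
      push Not at hcon
      obtain ⟨⟨c1, c2, c3, c4⟩, c5, c6⟩ := hcon
      rcases h3.2 ⟨c5, c3, c6, c4, hz⟩ with h | h
      · exact c2 h
      · exact c1 h
  have hsum := hS _ _ hd
  rw [hA] at hsum
  have h5 := K1 (FS (insert v (insert u (insert x₂ (insert x₁ ∅)))) (id : G → G))
    (FS (insert (-x₂) (insert (-x₁) ∅)) (id : G → G))
    ⟨0, zero_mem_FS _ _⟩ ⟨0, zero_mem_FS _ _⟩ (by rw [← hsum]; exact hAp)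
  rw [← hsum, f4, d2, c3] at h5
  rw [c3] at hTv
  omega

end Pool.Agent.SZC
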