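import Pool.Agent.SZC.St
import Pool.Agent.SZA.GRB
import Pool.Agent.SSX.Main

/-!
# SZC S32: ten elements of a group of order 32 with eight solutions of `2 x = 0`
-/

set_option autoImplicit false

noncomputable section

open Finset Pool.Agent.Helper64.Rho Pool.Agent.SDG Pool.Agent.MDR Pool.Agent.SSC Pool.Agent.SSE Pool.Agent.SZA
open scoped Classical Pointwise

namespace Pool.Agent.SZC

private theorem S32_two {G : Type} [AddCommGroup G] (x : G) : x + x ∈ PP G := by
  refine ⟨x, ?_⟩
  show (2 : ℕ) • x = x + x
  rw [two_nsmul]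

private theorem S32_eight {G : Type} [AddCommGroup G] [Finite G] (h32 : Nat.card G = 32)
    (hP : (PP G).index = 8) (x : G) : (8 : ℕ) • x = 0 := by
  have h1 := AddSubgroup.card_mul_index (PP G)
  rw [hP, h32] at h1
  have h2 : Nat.card (PP G) = 4 := by omega
  have h3 : Nat.card (PP G) • (⟨x + x, S32_two x⟩ : PP G) = 0 := card_nsmul_eq_zero'
  rw [h2] at h3
  have h4 := congrArg Subtype.val h3
  have h5 : (4 : ℕ) • (x + x) = 0 := h4
  have h6 : (4 : ℕ) • (x + x) = (8 : ℕ) • x := by
    rw [← two_nsmul, smul_smul]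
    norm_num
  rw [← h6, h5]

/-- a proper subgroup is contained in one of index 2 -/
private theorem S32_max {G : Type} [AddCommGroup G] [Finite G] (h8 : ∀ x : G, (8 : ℕ) • x = 0)
    (K : AddSubgroup G) (hK : K ≠ ⊤) : ∃ M : AddSubgroup G, M.index = 2 ∧ K ≤ M := by
  obtain ⟨M, hM, hKM⟩ := (eq_top_or_exists_le_coatom K).resolve_left hK
  refine ⟨M, ?_, hKM⟩
  obtain ⟨x, hx⟩ : ∃ x, x ∉ M := by
    by_contra hcon
    push Not at hcon
    exact hM.1 ((AddSubgroup.eq_top_iff' M).2 hcon)
  obtain ⟨y, hy, hyy⟩ : ∃ y, y ∉ M ∧ y + y ∈ M := by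
    by_contra hcon
    push Not at hcon
    have h1 := hcon x hx
    have h2 := hcon _ h1
    have h3 := hcon _ h2
    apply h3
    have h4 : x + x + (x + x) + (x + x + (x + x)) = (8 : ℕ) • x := by abel
    rw [h4, h8]
    exact M.zero_mem
  have hsup : M ⊔ AddSubgroup.zmultiples y = ⊤ := by
    apply hM.2
    refine lt_of_le_of_ne le_sup_left ?_
    intro h
    apply hy
    rw [h]
    exact (le_sup_right : AddSubgroup.zmultiples y ≤ _) (AddSubgroup.mem_zmultiples y)
  rw [AddSubgroup.index_eq_two_iff]
  refine ⟨y, fun b => ?_⟩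
  have hb : b ∈ M ⊔ AddSubgroup.zmultiples y := by rw [hsup]; exact AddSubgroup.mem_top b
  obtain ⟨m, hm, z, hz, rfl⟩ := AddSubgroup.mem_sup.1 hb
  obtain ⟨n, rfl⟩ := AddSubgroup.mem_zmultiples_iff.1 hz
  have hev : ∀ k : ℤ, (2 * k) • y ∈ M := by
    intro k
    have : (2 * k) • y = k • (y + y) := by
      rw [← two_zsmul, smul_smul, mul_comm]
    rw [this]
    exact M.zsmul_mem hyy k
  rcases Int.even_or_odd' n with ⟨k, rfl | rfl⟩
  · right
    refine ⟨M.add_mem hm (hev k), fun h => hy ?_⟩
    exact (M.add_mem_cancel_left (M.add_mem hm (hev k))).1 h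
  · left
    have e1 : m + (2 * k + 1) • y + y = m + (2 * k) • y + (y + y) := by
      rw [add_smul, one_smul]; abel
    have e2 : m + (2 * k + 1) • y = m + (2 * k) • y + y := by
      rw [add_smul, one_smul]; abel
    refine ⟨?_, fun h => hy ?_⟩
    · rw [e1]
      exact M.add_mem (M.add_mem hm (hev k)) hyy
    · rw [e2] at h
      exact (M.add_mem_cancel_left (M.add_mem hm (hev k))).1 h

/-- two generators modulo the doubles -/
private theorem S32_gen2 {G : Type} [AddCommGroup G] [Finite G] (d k : G)
    (h : ∀ x : G, ∃ m n : ℕ, x - (m • d + n • k) ∈ PP G) : (PP G).index ≤ 4 := by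
  have h1 : Function.Surjective (fun q : Bool × Bool =>
      (QuotientAddGroup.mk ((if q.1 then d else 0) + (if q.2 then k else 0)) : G ⧸ PP G)) := by
    intro z
    obtain ⟨x, rfl⟩ := QuotientAddGroup.mk_surjective z
    obtain ⟨m, n, hmn⟩ := h x
    refine ⟨(decide (m % 2 = 1), decide (n % 2 = 1)), ?_⟩
    rw [QuotientAddGroup.eq]
    have hp : ∀ (m : ℕ) (d : G), m • d - (if decide (m % 2 = 1) = true then d else 0) ∈ PP G := by
      intro m d
      rcases Nat.even_or_odd' m with ⟨r, rfl | rfl⟩
      · have : ¬ (2 * r) % 2 = 1 := by omega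
        simp only [this, decide_false, Bool.false_eq_true, if_false, sub_zero]
        rw [mul_comm, mul_smul, two_nsmul, smul_add]
        exact S32_two _
      · have : (2 * r + 1) % 2 = 1 := by omega
        simp only [this, decide_true, if_true]
        rw [add_smul, one_smul, add_sub_cancel_right, mul_comm, mul_smul, two_nsmul, smul_add]
        exact S32_two _
    have h2 := (PP G).add_mem hmn ((PP G).add_mem (hp m d) (hp n k))
    have e : -((if decide (m % 2 = 1) = true then d else 0) + (if decide (n % 2 = 1) = true then k else 0)) + x =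
        x - (m • d + n • k) + (m • d - (if decide (m % 2 = 1) = true then d else 0) +
          (n • k - (if decide (n % 2 = 1) = true then k else 0))) := by abel
    show -((if decide (m % 2 = 1) = true then d else 0) + (if decide (n % 2 = 1) = true then k else 0)) + x ∈ PP G
    rw [e]
    exact h2
  have h3 := Nat.card_le_card_of_surjective _ h1
  have h4 : Nat.card (Bool × Bool) = 4 := by
    rw [Nat.card_eq_fintype_card]
    rfl
  rw [h4] at h3
  exact h3


private theorem S32_core {G : Type} [AddCommGroup G] [Finite G] (hW4 : St_W4) (hX4 : St_X4)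
    (h32 : Nat.card G = 32) (hP : (PP G).index = 8) (s : Finset G) (hAE : AE s (id : G → G))
    (hAp : Aper (FS s (id : G → G))) (hgen : gen s (id : G → G) = ⊤) (h5 : s.card = 5)
    (hX : (FS s (id : G → G)).card ≤ 16) : False := by
  have h8 := S32_eight h32 hP
  obtain ⟨b1, b2, b3, b4, b5, b6, b7⟩ := Pool.Agent.SDG.all_Ba1 G G (id : G → G)
  have hi1 : ∀ i ∈ s, gen (s.erase i) (id : G → G) = ⊤ := by
    intro i hi
    by_contra hne
    have h1 : (id i : G) ∉ gen (s.erase i) (id : G → G) := by
      intro h
      exact hne ((b6 s i hi h).trans hgen)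
    have h2 := b4 s i hi h1
    have h3 : 9 ≤ (FS (s.erase i) (id : G → G)).card := by
      refine hX4 G G (s.erase i) id h8 ?_ (b2 s _ (erase_subset _ _) hAp) (by rw [card_erase_of_mem hi]; omega)
      exact ((Pool.Agent.SSE.all_SyE G G s id hAE).2.2.2.2.2.2 i hi).2.2.2
    omega
  have hi2 : ∀ i ∈ s, 12 ≤ (FS (s.erase i) (id : G → G)).card := by
    intro i hi
    obtain ⟨w, hw1, hw2, hw3⟩ := hW4 G G 3 (s.erase i) id (by rw [hP]; norm_num) (hi1 i hi)
      (fun j hj => hAE.2 j (mem_of_mem_erase hj)) (by rw [card_erase_of_mem hi]; omega)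
    have hw : w = s.erase i := eq_of_subset_of_card_le hw1 (by rw [hw2, card_erase_of_mem hi]; omega)
    rw [hw] at hw3
    omega
  obtain ⟨c1, c2, c3, c4, c5, c6, c7⟩ := Pool.Agent.SSE.all_SyE G G s id hAE
  have hlam : ∀ i ∈ s, lam (FS s (id : G → G)) (id i) ≤ (FS s (id : G → G)).card - 12 := by
    intro i hi
    have h1 := b3 s i hi
    have h2 := hi2 i hi
    omega
  have hlam' := c5 _ _ hlam
  have hX12 : 12 ≤ (FS s (id : G → G)).card := by
    obtain ⟨i, hi⟩ : s.Nonempty := card_pos.1 (by omega)
    exact (hi2 i hi).trans ((Nat.le_add_right _ _).trans (b3 s i hi))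
  rw [h5] at c1
  have hnc : ¬ IsAddCyclic G := by
    rintro ⟨g, hg⟩
    have h1 : (PP G).index ≤ 4 := by
      refine S32_gen2 g 0 fun x => ?_
      obtain ⟨n, hn⟩ := AddSubgroup.mem_zmultiples_iff.1 (hg x)
      refine ⟨(n % 8).toNat, 0, ?_⟩
      have h2 : (n % 8).toNat • g = x := by
        rw [← hn]
        have h3 : ((n % 8).toNat : ℤ) = n % 8 := Int.toNat_of_nonneg (Int.emod_nonneg n (by norm_num))
        rw [← natCast_zsmul, h3]
        conv_rhs => rw [← Int.emod_add_mul_ediv n 8]
        rw [add_smul, mul_comm, mul_smul]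
        have h4 : (8 : ℤ) • g = 0 := by exact_mod_cast h8 g
        rw [h4, smul_zero, add_zero]
      rw [h2]
      simp
    omega
  have hdvd : ∀ K : AddSubgroup G, Nat.card K ∣ 32 := by
    intro K
    rw [← h32]
    exact AddSubgroup.card_addSubgroup_dvd_card K
  have hDCX : Pool.Agent.KAU.DCX s (id : G → G) := by
    intro K c hK hc hle
    left
    have h1 : (s.filter fun i => (id i : G) - c ∈ K ∨ (id i : G) + c ∈ K).card + (ins s (id : G → G) K).card ≤ s.card := by
      rw [← card_union_of_disjoint]
      · refine card_le_card (union_subset (filter_subset _ _) (filter_subset _ _))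
      · rw [disjoint_left]
        intro i h2 h3
        have h4 := (mem_filter.1 h2).2
        have h5 : (id i : G) ∈ K := (mem_filter.1 h3).2
        apply hc
        rcases h4 with h4 | h4
        · have h6 : c ∈ K := by
            have := K.sub_mem h5 h4
            rwa [sub_sub_cancel] at this
          exact K.add_mem h6 h6
        · have h6 : c ∈ K := (K.add_mem_cancel_left h5).1 h4
          exact K.add_mem h6 h6
    have h2 := hdvd K
    have h3 : Nat.card K ≠ 5 := by
      intro h
      rw [h] at h2
      omega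
    omega
  rcases Pool.Agent.SZA.all_GRB G G s id hnc hAE hgen (by omega) hDCX (by rw [h5, h32]; norm_num) with
    ⟨K, hNF, hK, hAPK⟩ | hG
  · -- nearly filled
    obtain ⟨hKb, hKt, hst⟩ := hNF
    have hK1 : Nat.card K ≠ 1 := fun h => hKb (AddSubgroup.card_eq_one.1 h)
    have h2K := hdvd K
    by_cases hk2 : ∀ x ∈ K, x + x = 0
    · obtain ⟨d, a, f', lv, -, -, -, -, ha, -, -, hcd⟩ := Pool.Agent.SSX.all_LcW G G s id K hAE (by omega) hk2 hst hAPK
      rw [h5] at hcd
      have h1 : Nat.card K ∣ 5 := ⟨a, by rw [hcd, mul_comm]⟩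
      rcases (Nat.dvd_prime (by norm_num : Nat.Prime 5)).1 h1 with h | h
      · exact hK1 h
      · rw [h] at h2K
        omega
    · have hK4 : Nat.card K ≤ 4 := hK.resolve_right hk2
      push Not at hk2
      obtain ⟨k, hkK, hkk⟩ := hk2
      obtain ⟨d, -, hd, -⟩ := id hAPK
      have h1 : (PP G).index ≤ 4 := by
        refine S32_gen2 d k fun x => ?_
        obtain ⟨m, hm⟩ := hd x
        have hcz : ∀ z ∈ K, ∃ n : ℕ, z = n • k := by
          have hk0 : (2 : ℕ) • k ≠ 0 := by rw [two_nsmul]; exact hkk
          have hcK : Nat.card K = 4 := by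
            have h9 : Nat.card K ≠ 3 := by
              intro h
              rw [h] at h2K
              omega
            have h10 : Nat.card K ≠ 2 := by
              intro h
              have h11 : Nat.card K • (⟨k, hkK⟩ : K) = 0 := card_nsmul_eq_zero'
              rw [h] at h11
              exact hk0 (congrArg Subtype.val h11)
            have h12 : 0 < Nat.card K := Nat.card_pos
            omega
          have hok : addOrderOf k ∣ 4 := by
            rw [← hcK]
            exact AddSubgroup.addOrderOf_dvd_natCard K hkK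
          have hok4 : addOrderOf k = 4 := by
            have h9 : addOrderOf k ≤ 4 := Nat.le_of_dvd (by norm_num) hok
            have h10 : 0 < addOrderOf k := addOrderOf_pos k
            have h11 : ¬ addOrderOf k ∣ 2 := fun h => hk0 (addOrderOf_dvd_iff_nsmul_eq_zero.1 h)
            interval_cases hq : addOrderOf k
            · exact absurd (one_dvd 2) h11
            · exact absurd (dvd_refl 2) h11
            · omega
            · rfl
          have hze : AddSubgroup.zmultiples k = K := by
            refine AddSubgroup.eq_of_le_of_card_ge ?_ ?_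
            · rw [AddSubgroup.zmultiples_le]
              exact hkK
            · rw [Nat.card_zmultiples, hcK, hok4]
          intro z hz
          rw [← hze, ← mem_multiples_iff_mem_zmultiples] at hz
          obtain ⟨n, hn⟩ := hz
          exact ⟨n, hn.symm⟩
        obtain ⟨n, hn⟩ := hcz _ hm
        refine ⟨m, n, ?_⟩
        rw [← hn, add_sub_cancel, sub_self]
        exact AddSubgroup.zero_mem _
      omega
  · have h22 : 22 ≤ (it (sym s (id : G → G)) 2).card := by
      rw [h5] at hG
      rcases hG with hG | ⟨κ, -, -, h, -⟩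
      · rcases hG 2 (by norm_num) with ⟨τ, h1, h2⟩ | h | ⟨-, h⟩
        · omega
        · omega
        · omega
      · omega
    have hD1 : it (sym s (id : G → G)) 1 = sym s (id : G → G) := by
      show ({0} : Finset G) + sym s (id : G → G) = sym s (id : G → G)
      rw [singleton_zero, zero_add]
    have h3 : (it (sym s (id : G → G)) 3).card = 32 := by
      have _ : Fintype G := Fintype.ofFinite G
      have huniv : it (sym s (id : G → G)) 3 = univ := by
        rw [eq_univ_iff_forall]
        intro x
        have h1 : ((sym s (id : G → G)).image fun y => x - y).card = (sym s (id : G → G)).card :=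
          card_image_of_injective _ sub_right_injective
        have h2 : (it (sym s (id : G → G)) 2 ∩ (sym s (id : G → G)).image fun y => x - y).Nonempty := by
          refine inter_nonempty_of_card_lt_card_add_card (subset_univ _) (subset_univ _) ?_
          rw [card_univ, ← Nat.card_eq_fintype_card, h32, h1, c1]
          omega
        obtain ⟨z, hz⟩ := h2
        obtain ⟨hz1, hz2⟩ := mem_inter.1 hz
        obtain ⟨y, hy, rfl⟩ := mem_image.1 hz2
        show x ∈ it (sym s (id : G → G)) 2 + sym s (id : G → G)
        exact mem_add.2 ⟨x - y, hz1, y, hy, sub_add_cancel x y⟩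
      rw [huniv, card_univ, ← Nat.card_eq_fintype_card, h32]
    have hAv := Pool.Agent.SSC.mdr_Av0 G (FS s (id : G → G)) (sym s (id : G → G)) ((FS s (id : G → G)).card - 12) 3 c2 hlam' (by omega)
    rw [sum_range_succ, sum_range_succ, sum_range_one, h3, hD1, c1] at hAv
    have h0 : (it (sym s (id : G → G)) 0).card = 1 := card_singleton _
    rw [h0] at hAv
    obtain ⟨j, hj⟩ : ∃ j, (FS s (id : G → G)).card = 12 + j := ⟨_, (Nat.add_sub_cancel' hX12).symm⟩
    rw [hj] at hAv hX
    have e1 : 12 + j - 12 = j := by omega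
    rw [e1] at hAv
    have hj4 : j ≤ 4 := by omega
    interval_cases j <;> omega


private theorem S32_cap {G : Type} [AddCommGroup G] (A : Finset G) : Cap 2 A (id : G → G) := by
  intro x
  refine (card_le_card (t := {x, -x}) ?_).trans card_le_two
  intro y hy
  rw [mem_filter] at hy
  rw [mem_insert, mem_singleton]
  exact hy.2

theorem thm_S32 : St_Ix2 → St_W4 → St_HfG → St_X4 → St_S32 := by
  intro hIx2 hW4 hHfG hX4 G _ _ A h32 hG2 h0 hcl hAp h10 h31
  have hP : (PP G).index = 8 := (hIx2 G).trans hG2
  have h8 := S32_eight h32 hP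
  obtain ⟨b1, b2, b3, b4, b5, b6, b7⟩ := Pool.Agent.SDG.all_Ba1 G G (id : G → G)
  have hne : ∀ i ∈ A, (id i : G) ≠ 0 := fun i hi h => h0 (h ▸ hi)
  have houts : ∀ M' : AddSubgroup G, M'.index = 2 → 3 + 1 ≤ (outs A (id : G → G) M').card := by
    intro M hM
    by_contra hcon
    obtain ⟨y, hyA, hyM⟩ : ∃ y ∈ A, y ∉ M := by
      by_contra h
      push Not at h
      have h1 : M = ⊤ := by
        rw [eq_top_iff, ← hcl, AddSubgroup.closure_le]
        exact fun x hx => h x (by exact_mod_cast hx)
      rw [h1, AddSubgroup.index_top] at hM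
      omega
    have hsub : ins A (id : G → G) M ⊆ A := filter_subset _ _
    have hcard : (ins A (id : G → G) M).card + (outs A (id : G → G) M).card = A.card :=
      card_filter_add_card_filter_not _
    have h1 := Pool.Agent.SSX.PAG_all G G (ins A (id : G → G) M) id (fun i hi => hne i (hsub hi)) (S32_cap _)
      (b2 A _ hsub hAp)
    have h2 : 17 ≤ cf 2 (ins A (id : G → G) M).card := by
      have h7 : cf 2 7 = 17 := by decide
      rw [← h7]
      unfold cf
      refine Nat.add_le_add_left (sum_le_sum_of_subset ?_) 1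
      intro i hi
      rw [mem_range] at hi ⊢
      omega
    have hIM : ∀ x ∈ FS (ins A (id : G → G) M) (id : G → G), x ∈ M := by
      intro x hx
      have h3 := b7 _ x hx
      have h4 : gen (ins A (id : G → G) M) (id : G → G) ≤ M := by
        unfold gen
        rw [AddSubgroup.closure_le]
        rintro _ ⟨i, hi, rfl⟩
        exact (mem_filter.1 (by exact_mod_cast hi)).2
      exact h4 h3
    have h3 : 2 * (FS (ins A (id : G → G) M) (id : G → G)).card ≤ (FS A (id : G → G)).card := by
      have h4 : Disjoint (FS (ins A (id : G → G) M) (id : G → G))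
          ((FS (ins A (id : G → G) M) (id : G → G)).image fun x => x + y) := by
        rw [disjoint_left]
        intro x hx hx2
        obtain ⟨z, hz, rfl⟩ := mem_image.1 hx2
        exact hyM ((M.add_mem_cancel_left (hIM z hz)).1 (hIM _ hx))
      have h5 : FS (ins A (id : G → G) M) (id : G → G) ∪
          ((FS (ins A (id : G → G) M) (id : G → G)).image fun x => x + y) ⊆ FS A (id : G → G) := by
        intro x hx
        rcases mem_union.1 hx with hx | hx
        · obtain ⟨t, ht, rfl⟩ := mem_FS.1 hx
          exact mem_FS.2 ⟨t, ht.trans hsub, rfl⟩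
        · obtain ⟨z, hz, rfl⟩ := mem_image.1 hx
          obtain ⟨t, ht, rfl⟩ := mem_FS.1 hz
          have hyt : y ∉ t := fun h => hyM (mem_filter.1 (ht h)).2
          refine mem_FS.2 ⟨insert y t, insert_subset hyA (ht.trans hsub), ?_⟩
          rw [sum_insert hyt, add_comm]
          rfl
      have h6 := card_le_card h5
      rw [card_union_of_disjoint h4, card_image_of_injective _ (add_left_injective y)] at h6
      omega
    omega
  obtain ⟨s1, s2, hd, hu, hA1, hA2, hc1, hc2, hM⟩ :=
    hHfG G G 3 A id (by rw [hP]; norm_num) hne (S32_cap A) hAp houts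
  rw [h10] at hc1 hc2
  have hg1 : gen s1 (id : G → G) = ⊤ := by
    by_contra h
    obtain ⟨M, hM2, hle⟩ := S32_max h8 _ h
    obtain ⟨i, hi, hiM⟩ := (hM M hM2).1
    exact hiM (hle (AddSubgroup.subset_closure ⟨i, by exact_mod_cast hi, rfl⟩))
  have hg2 : gen s2 (id : G → G) = ⊤ := by
    by_contra h
    obtain ⟨M, hM2, hle⟩ := S32_max h8 _ h
    obtain ⟨i, hi, hiM⟩ := (hM M hM2).2
    exact hiM (hle (AddSubgroup.subset_closure ⟨i, by exact_mod_cast hi, rfl⟩))
  have hT : FS A (id : G → G) = FS s1 (id : G → G) + FS s2 (id : G → G) := by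
    rw [← hu]
    exact b1 s1 s2 hd
  have hK := (Pool.Agent.SDG.all_Kn G).1 (FS s1 (id : G → G)) (FS s2 (id : G → G)) ⟨0, zero_mem_FS _ _⟩ ⟨0, zero_mem_FS _ _⟩
    (by rw [← hT]; exact hAp)
  rw [← hT, h31] at hK
  have hAp1 : Aper (FS s1 (id : G → G)) := b2 A s1 (by rw [← hu]; exact subset_union_left) hAp
  have hAp2 : Aper (FS s2 (id : G → G)) := b2 A s2 (by rw [← hu]; exact subset_union_right) hAp
  rcases Nat.lt_or_ge 16 (FS s1 (id : G → G)).card with h | h
  · exact S32_core hW4 hX4 h32 hP s2 hA2 hAp2 hg2 (by omega) (by omega)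
  · exact S32_core hW4 hX4 h32 hP s1 hA1 hAp1 hg1 (by omega) h

end Pool.Agent.SZC
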