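import Pool.Agent.SZC.St

/-!
# SZC, module Tv (MP_ec93d3_co): sets with at most one element in every coset
-/

set_option autoImplicit false

noncomputable section

open Finset Pool.Agent.Helper64.Rho Pool.Agent.SDG Pool.Agent.MDR Pool.Agent.SSC Pool.Agent.SSE Pool.Agent.SZA
open scoped Classical Pointwise

namespace Pool.Agent.SZC

theorem thm_Tv : St_Tv := by
  intro G _ X K y hX hy hy2
  have h1 : (X.filter fun x => x + y ∈ X).card ≤ (X.filter fun x => x + y ∉ X).card := by
    refine card_le_card_of_injOn (fun x => x + y) ?_ ?_
    · intro x hx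
      obtain ⟨h2, h3⟩ := mem_filter.1 (mem_coe.1 hx)
      refine mem_coe.2 (mem_filter.2 ⟨h3, fun h4 => ?_⟩)
      have h5 := hX (x + y + y) h4 x h2 (by
        have e : x + y + y - x = y + y := by abel
        rw [e]
        exact hy)
      apply hy2
      have e : x + y + y = x + (y + y) := by abel
      rw [e] at h5
      exact left_eq_add.1 h5.symm
    · intro a _ b _ h
      exact add_right_cancel h
  have h2 : (X.filter fun x => x + y ∈ X).card + (X.filter fun x => x + y ∉ X).card = X.card :=
    card_filter_add_card_filter_not (s := X) (fun x => x + y ∈ X)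
  have h3 : lam X y = (X.filter fun x => x + y ∉ X).card := rfl
  rw [h3]
  omega

end Pool.Agent.SZC
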