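import Pool.Agent.SZC.St

/-!
# SZC: one member more than a basis modulo the doubles
-/

set_option autoImplicit false

noncomputable section

open Finset Pool.Agent.Helper64.Rho Pool.Agent.SDG Pool.Agent.MDR Pool.Agent.SSC Pool.Agent.SSE Pool.Agent.SZA
open scoped Classical Pointwise

namespace Pool.Agent.SZC

theorem thm_W4 : St_Tv → St_BsG → St_W4 := by
  intro hTv hBs G ι _ _ r u f hr hg h2 hc
  obtain ⟨b, hbu, hb1, hb2, hb3, hb4⟩ := hBs G ι u f hg
  have hbr : b.card = r := by
    rw [hr] at hb1
    exact Nat.pow_right_injective (le_refl 2) hb1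
  have hlt : b.card < u.card := by omega
  obtain ⟨y, hyu, hyb⟩ := exists_mem_notMem_of_card_lt_card hlt
  have hT := hTv G (FS b f) (PP G) (f y) hb4 ⟨f y, by
    simp [nsmulAddMonoidHom, two_nsmul]⟩ (h2 y hyu)
  refine ⟨insert y b, insert_subset hyu hbu, ?_, ?_⟩
  · rw [card_insert_of_notMem hyb, hbr]
  · have h1 : FS (insert y b) f = FS b f ∪ (FS b f).image (· + f y) := FS_insert hyb f
    have h3 : (FS (insert y b) f).card = (FS b f).card + lam (FS b f) (f y) := by
      rw [h1]
      have := Fintype.ofFinite G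
      exact card_union_shift (FS b f) (f y)
    rw [h3]
    rw [hb3, hbr] at hT ⊢
    omega

end Pool.Agent.SZC
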