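import Pool.Agent.SZC.St
import Pool.Agent.SSE.B3E
import Pool.Agent.SDG.Ba1

/-!
# SZC: module X4, four members of a group killed by 8
-/

set_option autoImplicit false

noncomputable section

open Finset Pool.Agent.Helper64.Rho Pool.Agent.SDG Pool.Agent.MDR Pool.Agent.SSC Pool.Agent.SSE
open scoped Classical Pointwise

namespace Pool.Agent.SZC

private theorem X4_AE {G ι : Type} [AddCommGroup G] {s t : Finset ι} {f : ι → G} (h : AE s f)
    (hts : t ⊆ s) : AE t f := by
  refine ⟨⟨fun i hi => h.1.1 i (hts hi), fun x => ?_⟩, fun i hi => h.2 i (hts hi)⟩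
  exact (Finset.card_le_card (Finset.filter_subset_filter _ hts)).trans (h.1.2 x)

/-- if `o` is the order of `d` and exactly one element leaves `X`, then `o` does not divide `|X|` -/
private theorem X4_dvd {G : Type} [AddCommGroup G] [Finite G] (X : Finset G) (d : G)
    (h1 : lam X d = 1) : ¬ addOrderOf d ∣ X.card := by
  intro hdvd
  have := Fintype.ofFinite G
  obtain ⟨x0, hx0⟩ := Finset.card_eq_one.1 h1
  have hx0m : x0 ∈ X.filter (fun b => b + d ∉ X) := by
    rw [hx0]
    exact Finset.mem_singleton_self _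
  obtain ⟨hx0X, hx0d⟩ := Finset.mem_filter.1 hx0m
  have huniq : ∀ x ∈ X, x + d ∉ X → x = x0 := by
    intro x hx hxd
    have h2 : x ∈ X.filter (fun b => b + d ∉ X) := Finset.mem_filter.2 ⟨hx, hxd⟩
    rw [hx0] at h2
    exact Finset.mem_singleton.1 h2
  set H := AddSubgroup.zmultiples d with hH
  have hdH : d ∈ H := AddSubgroup.mem_zmultiples d
  set X1 := X.filter (fun x => x - x0 ∉ H) with hX1
  set X2 := X.filter (fun x => x - x0 ∈ H) with hX2
  have hFc : (Pool.Agent.Helper58.F H).card = addOrderOf d := by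
    rw [← Nat.card_zmultiples d, Nat.card_eq_fintype_card, Fintype.card_subtype]
    congr 1
  have hst : H ≤ Pool.Agent.Helper58.stab X1 := by
    rw [hH, AddSubgroup.zmultiples_le]
    apply Pool.Agent.Helper58.mem_stab_of_forall
    intro x hx
    obtain ⟨hxX, hxH⟩ := Finset.mem_filter.1 hx
    rw [add_comm d x]
    refine Finset.mem_filter.2 ⟨?_, ?_⟩
    · by_contra hcon
      have h2 := huniq x hxX hcon
      apply hxH
      rw [h2, sub_self]
      exact H.zero_mem
    · intro hcon
      apply hxH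
      have h2 : x - x0 = (x + d - x0) - d := by abel
      rw [h2]
      exact H.sub_mem hcon hdH
  have hd1 : addOrderOf d ∣ X1.card := by
    rw [← hFc]
    exact Pool.Agent.Helper58.dvd_of_inv hst
  have hsum : X2.card + X1.card = X.card := Finset.card_filter_add_card_filter_not _
  have hd2 : addOrderOf d ∣ X2.card := by
    rw [← hsum] at hdvd
    exact (Nat.dvd_add_iff_left hd1).2 hdvd
  have hpos : 1 ≤ X2.card := by
    apply Finset.card_pos.2
    refine ⟨x0, Finset.mem_filter.2 ⟨hx0X, ?_⟩⟩
    rw [sub_self]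
    exact H.zero_mem
  have hlt : X2.card < addOrderOf d := by
    rw [← hFc]
    have h2 : (X2.image fun x => x - x0) ⊆ (Pool.Agent.Helper58.F H).erase d := by
      intro z hz
      obtain ⟨x, hx, rfl⟩ := Finset.mem_image.1 hz
      obtain ⟨hxX, hxH⟩ := Finset.mem_filter.1 hx
      refine Finset.mem_erase.2 ⟨?_, Pool.Agent.Helper58.mem_F.2 hxH⟩
      intro h3
      apply hx0d
      have h4 : x0 + d = x := by
        rw [← h3]
        abel
      rw [h4]
      exact hxX
    have h3 := Finset.card_le_card h2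
    rw [Finset.card_image_of_injective _ (sub_left_injective), Finset.card_erase_of_mem
      (Pool.Agent.Helper58.mem_F.2 hdH)] at h3
    have h4 : 0 < (Pool.Agent.Helper58.F H).card :=
      Finset.card_pos.2 ⟨d, Pool.Agent.Helper58.mem_F.2 hdH⟩
    omega
  have := Nat.le_of_dvd hpos hd2
  omega

theorem thm_X4 : St_X4 := by
  intro G ι _ _ u f h8 hAE hAp hu
  obtain ⟨i, hi⟩ : u.Nonempty := Finset.card_pos.1 (by omega)
  have hB := (Pool.Agent.SDG.thm_Ba1 G ι f).2.2.1 u i hi
  have hv : (u.erase i).card = 3 := by rw [Finset.card_erase_of_mem hi, hu]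
  have h7 := Pool.Agent.SSE.thm_B3E G ι (u.erase i) f (X4_AE hAE (Finset.erase_subset _ _))
    (by omega)
  rw [hv] at h7
  have hd0 : f i ≠ 0 := hAE.1.1 i hi
  have hlam1 : 1 ≤ lam (FS u f) (f i) := by
    by_contra h
    apply hd0
    apply hAp
    intro x hx
    by_contra hxd
    apply h
    exact Finset.card_pos.2 ⟨x, Finset.mem_filter.2 ⟨hx, hxd⟩⟩
  by_contra hcon
  have hX8 : (FS u f).card = 8 := by omega
  have hlam : lam (FS u f) (f i) = 1 := by omega
  apply X4_dvd (FS u f) (f i) hlam
  rw [hX8]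
  exact addOrderOf_dvd_of_nsmul_eq_zero (h8 (f i))

end Pool.Agent.SZC
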