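import Pool.Agent.SZC.Kq
import Pool.Agent.SZC.K9
import Pool.Agent.SZC.Nf0
import Pool.Agent.SZC.Kd
import Pool.Agent.SZC.Ix2
import Pool.Agent.SZC.Tv
import Pool.Agent.SZC.BsG
import Pool.Agent.SZC.W4
import Pool.Agent.SZC.S10
import Pool.Agent.SZC.S16
import Pool.Agent.SZC.ClG
import Pool.Agent.SZC.HfG
import Pool.Agent.SZC.X4
import Pool.Agent.SZC.S32
import Pool.Agent.SZC.C5
import Pool.Agent.SZC.C3
import Pool.Agent.SZC.C2a
import Pool.Agent.SZC.C2b
import Pool.Agent.SZC.C2c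
import Pool.Agent.SZC.Fin
import Pool.Agent.SZC.L1

/-!
# SZC, assembly (helper97): the near-full case in rank at least three
-/

set_option autoImplicit false

noncomputable section

open Finset Pool.Agent.Helper64.Rho Pool.Agent.SDG
open scoped Classical Pointwise

namespace Pool.Agent.SZC

theorem all_Kq : St_Kq := thm_Kq
theorem all_K9 : St_K9 := thm_K9
theorem all_Nf0 : St_Nf0 := thm_Nf0
theorem all_Kd : St_Kd := thm_Kd all_Kq all_K9 all_Nf0
theorem all_Ix2 : St_Ix2 := thm_Ix2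
theorem all_Tv : St_Tv := thm_Tv
theorem all_BsG : St_BsG := thm_BsG
theorem all_W4 : St_W4 := thm_W4 all_Tv all_BsG
theorem all_S10 : St_S10 := thm_S10 all_W4
theorem all_S16 : St_S16 := thm_S16 all_Ix2 all_Tv all_W4
theorem all_ClG : St_ClG := thm_ClG
theorem all_HfG : St_HfG := thm_HfG all_ClG
theorem all_X4 : St_X4 := thm_X4
theorem all_S32 : St_S32 := thm_S32 all_Ix2 all_W4 all_HfG all_X4
theorem all_C5 : St_C5 := thm_C5 all_Kd
theorem all_C3 : St_C3 := thm_C3 all_Kq all_K9 all_Nf0 all_Kd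
theorem all_C2a : St_C2a := thm_C2a all_Kq all_Nf0 all_Kd all_Ix2 all_S10 all_S16 all_S32
theorem all_C2b : St_C2b := thm_C2b all_Kq all_Nf0 all_Kd all_Ix2 all_S10

/-- the near-full statement, from `SZA.St_FinA` -/
theorem fin_of (hA : Pool.Agent.SZA.St_FinA) : St_Fin :=
  thm_Fin all_C5 all_C3 all_C2a all_C2b (thm_C2c all_Kq all_Nf0 all_Kd hA)

end Pool.Agent.SZC
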