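import Pool.Agent.SZC.St
import Pool.Agent.SNW.Lo2

/-!
# SZC, module C2c (helper36): `8` divides `|G[2]|`, `4` and `3` do not divide the exponent
-/

set_option autoImplicit false

noncomputable section

open Finset Pool.Agent.Helper64.Rho Pool.Agent.SDG Pool.Agent.MDR Pool.Agent.SSC Pool.Agent.SSE Pool.Agent.SZA
open scoped Classical Pointwise

namespace Pool.Agent.SZC

theorem C2c_dvd (G : Type) [AddCommGroup G] [Finite G] (m : ℕ) (h : m ∣ Nat.card {x : G // (2 : ℕ) • x = 0}) :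
    m ∣ Nat.card G := by
  have h1 : Nat.card {x : G // (2 : ℕ) • x = 0} = Nat.card (nsmulAddMonoidHom 2 : G →+ G).ker := by
    refine Nat.card_congr (Equiv.subtypeEquivRight fun x => ?_)
    rw [AddMonoidHom.mem_ker, nsmulAddMonoidHom_apply]
  rw [h1] at h
  exact h.trans (AddSubgroup.card_addSubgroup_dvd_card _)

theorem C2c_prime (G : Type) [AddCommGroup G] [Finite G] (p : ℕ) (hp : p.Prime) (h : p ∣ Nat.card G) :
    p ∣ AddMonoid.exponent G := by
  have : Fact p.Prime := ⟨hp⟩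
  obtain ⟨x, hx⟩ := exists_prime_addOrderOf_dvd_card' p h
  rw [← hx]
  exact AddMonoid.addOrder_dvd_exponent x

theorem C2c_exp (G : Type) [AddCommGroup G] [Finite G] : AddMonoid.exponent G ∣ Nat.card G := by
  refine AddMonoid.exponent_dvd_of_forall_nsmul_eq_zero fun x => ?_
  exact card_nsmul_eq_zero'

theorem thm_C2c : St_Kq → St_Nf0 → St_Kd → Pool.Agent.SZA.St_FinA → St_C2c := by
  intro hKq hNf hKd hFin G _ _ A h8 h4 h3 hA
  have hn8 : 8 ∣ Nat.card G := C2c_dvd G 8 h8
  have hn0 : 0 < Nat.card G := Nat.card_pos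
  have hn2 : 2 ≤ Nat.card G := by
    have := Nat.le_of_dvd hn0 hn8
    omega
  obtain ⟨f1, f2, f3, f4, f5, f6⟩ := hNf G A hn2 hA
  obtain ⟨d1, d2, -, -, -⟩ := hKd G A hn2 hA
  obtain ⟨k, N, hN, hk⟩ := Nat.exists_eq_two_pow_mul_odd hn0.ne'
  have he := C2c_exp G
  have he0 : AddMonoid.exponent G ≠ 0 := fun h => hn0.ne' (Nat.eq_zero_of_zero_dvd (h ▸ he))
  obtain ⟨j, m, hm, hj⟩ := Nat.exists_eq_two_pow_mul_odd he0
  have hj1 : j ≤ 1 := by
    by_contra hcon
    apply h4
    rw [hj]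
    have h1 : (4 : ℕ) ∣ 2 ^ j := by
      have h2 := pow_dvd_pow 2 (show 2 ≤ j by omega)
      simpa using h2
    exact h1.mul_right m
  have hj2 : 2 ^ j ∣ 2 := by
    have := pow_dvd_pow 2 hj1
    simpa using this
  have hmN : m ∣ N := by
    have h1 : m ∣ 2 ^ k * N := by
      rw [← hk]
      exact (Dvd.intro_left _ hj.symm).trans he
    exact (Nat.Coprime.dvd_of_dvd_mul_left (hm.coprime_two_right.pow_right k) h1)
  have hk3 : 3 ≤ k := by
    have h1 : 2 ^ 3 ∣ 2 ^ k * N := by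
      rw [← hk]
      exact hn8
    have h2 : 2 ^ 3 ∣ 2 ^ k :=
      Nat.Coprime.dvd_of_dvd_mul_right (Nat.Coprime.pow_left 3 hN.coprime_two_left) h1
    exact (Nat.pow_dvd_pow_iff_le_right (by norm_num)).1 h2
  have hN1 : N ≠ 1 := by
    intro h
    rw [h, Nat.dvd_one] at hmN
    rw [hmN, mul_one] at hj
    obtain ⟨a, ha⟩ := Finset.card_pos.1 f5
    apply f6 a ha
    rw [← two_nsmul]
    have h2 : AddMonoid.exponent G ∣ 2 := by rw [hj]; exact hj2
    obtain ⟨c, hc⟩ := h2
    rw [hc, mul_comm, mul_nsmul', AddMonoid.exponent_nsmul_eq_zero]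
    simp
  obtain ⟨q, hq⟩ : ∃ q, q = N.minFac := ⟨_, rfl⟩
  have hqp : q.Prime := by
    rw [hq]
    exact Nat.minFac_prime hN1
  have hqN : q ∣ N := by
    rw [hq]
    exact Nat.minFac_dvd N
  have hqn : q ∣ Nat.card G := by
    rw [hk]
    exact hqN.mul_left _
  have hqe := C2c_prime G q hqp hqn
  have hqo : Odd q := hN.of_dvd_nat hqN
  have hq5 : 5 ≤ q := by
    have h1 := hqp.two_le
    have h2 : q ≠ 2 := by
      rintro rfl
      exact absurd hqo (by decide)
    have h3' : q ≠ 3 := by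
      rintro rfl
      exact h3 hqe
    have h4' : q ≠ 4 := by
      rintro rfl
      exact absurd hqp (by norm_num)
    omega
  by_cases hc : 4 * q ^ 2 ≤ Nat.card G
  · exact d2 q (by omega) hqe hc
  have hNq : N = q := by
    by_contra hcon
    have hNp : ¬ N.Prime := by
      intro h
      apply hcon
      rw [hq]
      exact (h.minFac_eq).symm
    have h1 : N.minFac ^ 2 ≤ N := Nat.minFac_sq_le_self (Nat.pos_of_ne_zero (by rintro rfl; exact absurd hN (by decide))) hNp
    rw [← hq] at h1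
    apply hc
    rw [hk]
    have h2 : 2 ^ 3 ≤ 2 ^ k := Nat.pow_le_pow_right (by norm_num) hk3
    nlinarith
  rw [hNq] at hk hmN
  have hall : ∀ x : G, (2 * q) • x = 0 := by
    intro x
    have h1 : AddMonoid.exponent G ∣ 2 * q := by
      rw [hj]
      exact mul_dvd_mul hj2 hmN
    obtain ⟨c, hc'⟩ := h1
    rw [hc', mul_comm, mul_nsmul', AddMonoid.exponent_nsmul_eq_zero]
    simp
  obtain ⟨a, rfl⟩ : ∃ a, k = a + 1 := ⟨k - 1, by omega⟩
  have hpow : (2 : ℕ) ^ (a + 1) = 2 * 2 ^ a := by ring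
  have h2a : 2 ^ a ≤ 2 * q := by
    by_contra hcon
    apply hc
    rw [hk, hpow]
    nlinarith
  rcases d1 q (by omega) hqe with h | hd1
  · exact h
  have ht : 2 ^ (a + 1) + 1 ≤ A.card := by
    rw [hk] at hd1
    have h1 : q * (2 ^ (a + 1) + 1) ≤ q * A.card := by
      calc q * (2 ^ (a + 1) + 1) = 2 ^ (a + 1) * q + q := by ring
        _ ≤ _ := hd1
    exact Nat.le_of_mul_le_mul_left h1 (by omega)
  have h4a : 4 ≤ 2 ^ a := by
    have := Nat.pow_le_pow_right (n := 2) (by norm_num) (show 2 ≤ a by omega)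
    simpa using this
  by_cases ht9 : A.card = 9
  · obtain ⟨H, hH, hc1, hv⟩ := hKq G q (by omega) hqe
    refine ⟨H, hH, ?_⟩
    rw [hv, ht9]
    have h1 : 2 ^ a = 4 := by
      rw [ht9, hpow] at ht
      omega
    have h2 : Nat.card H = 8 := by
      rw [hk, hpow, h1] at hc1
      have : q * Nat.card H = q * 8 := by
        rw [← hc1]
        ring
      exact Nat.eq_of_mul_eq_mul_left (by omega) this
    rw [h2]
    rw [ht9] at f1
    have h3' : cf 2 9 = 26 := by decide
    have h4' : cf (2 * 8) (max 1 (9 + 1 - 8)) = 3 := by decide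
    rw [h4']
    omega
  · have ht10 : 10 ≤ A.card := by
      rw [hpow] at ht
      omega
    have hF := hFin G G (a + 1) q A id ⟨hqp, hq5, hk, hall⟩ hk3 (by simpa using h2a) ht10 ht
      (fun i hi h => hA.1 (by have h1 : i = 0 := h; rwa [← h1])) (Pool.Agent.SNW.cap_id A) hA.2.2.1
      (by rw [Pool.Agent.SNW.gen_id]; exact hA.2.1)
    rw [Nat.add_sub_cancel] at hF
    have h2e : 2 ∣ AddMonoid.exponent G :=
      C2c_prime G 2 Nat.prime_two ((by norm_num : 2 ∣ 8).trans hn8)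
    have h2q : 2 * q ∣ AddMonoid.exponent G :=
      Nat.Coprime.mul_dvd_of_dvd_of_dvd hqo.coprime_two_left h2e hqe
    obtain ⟨H, hH, hc1, hv⟩ := hKq G (2 * q) (by omega) h2q
    have h2 : Nat.card H = 2 ^ a := by
      rw [hk, hpow] at hc1
      have : (2 * q) * Nat.card H = (2 * q) * 2 ^ a := by
        rw [← hc1]
        ring
      exact Nat.eq_of_mul_eq_mul_left (by omega) this
    refine ⟨H, hH, ?_⟩
    rw [hv, h2]
    have hW := Pool.Agent.SNW.W2_upper 1 (2 ^ a) A.card le_rfl (by omega) (by omega)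
    rw [one_mul, mul_one] at hW
    have hmax : max 1 (A.card + 1 - 2 ^ a) = A.card + 1 - 2 ^ a := by
      rw [max_eq_right]
      omega
    rw [hmax]
    omega

end Pool.Agent.SZC
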