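import Pool.Agent.SZC.St
import Pool.Agent.SNW.Eq

/-!
# SZC, module Kq (helper36): cyclic quotients of order `q`, `q` a divisor of the exponent
-/

set_option autoImplicit false

noncomputable section

open Finset Pool.Agent.Helper64.Rho Pool.Agent.SDG Pool.Agent.MDR Pool.Agent.SSC Pool.Agent.SSE Pool.Agent.SZA
open scoped Classical Pointwise

namespace Pool.Agent.SZC

theorem Kq_sup {G : Type} [AddCommGroup G] (L : AddSubgroup G) (h : IsAddCyclic (G ⧸ L)) :
    ∃ z : G, L ⊔ AddSubgroup.zmultiples z = ⊤ := by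
  obtain ⟨g, hg⟩ := h.exists_zsmul_surjective
  obtain ⟨z, rfl⟩ := QuotientAddGroup.mk'_surjective L g
  refine ⟨z, ?_⟩
  rw [eq_top_iff]
  intro x _
  obtain ⟨k, hk⟩ := hg (QuotientAddGroup.mk' L x)
  have h1 : x - k • z ∈ L := by
    rw [← QuotientAddGroup.eq_zero_iff]
    have h2 : ((x - k • z : G) : G ⧸ L) = QuotientAddGroup.mk' L x - k • QuotientAddGroup.mk' L z := by
      rw [← map_zsmul, ← map_sub]
      rfl
    rw [h2, ← hk]
    simp
  have h3 : x = (x - k • z) + k • z := by abel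
  rw [h3]
  exact AddSubgroup.add_mem_sup h1 (AddSubgroup.zsmul_mem_zmultiples z k)

theorem Kq_idx {G : Type} [AddCommGroup G] [Finite G] (L : AddSubgroup G) (h : IsAddCyclic (G ⧸ L)) (q : ℕ)
    (hq : q ∣ L.index) : ∃ H : AddSubgroup G, L ≤ H ∧ H.index = q := by
  have hk : Nat.card (G ⧸ L) = L.index := rfl
  refine ⟨((nsmulAddMonoidHom q : (G ⧸ L) →+ (G ⧸ L)).range).comap (QuotientAddGroup.mk' L), ?_, ?_⟩
  · intro x hx
    rw [AddSubgroup.mem_comap]
    have h1 : QuotientAddGroup.mk' L x = 0 := (QuotientAddGroup.eq_zero_iff x).2 hx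
    rw [h1]
    exact AddSubgroup.zero_mem _
  · rw [AddSubgroup.index_comap_of_surjective _ (QuotientAddGroup.mk'_surjective L)]
    rw [IsAddCyclic.index_nsmulAddMonoidHom_range (G ⧸ L) q, hk]
    exact Nat.gcd_eq_right hq

theorem thm_Kq : St_Kq := by
  intro G _ _ q hq2 hq
  obtain ⟨L, hL, hLc⟩ := Pool.Agent.SNW.exp_quot G
  have hn0 : 0 < Nat.card G := Nat.card_pos
  have he : AddMonoid.exponent G ∣ Nat.card G := by
    refine AddMonoid.exponent_dvd_of_forall_nsmul_eq_zero fun x => ?_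
    exact card_nsmul_eq_zero'
  have he0 : 0 < AddMonoid.exponent G := Nat.pos_of_dvd_of_pos he hn0
  have hidx : L.index = AddMonoid.exponent G := by
    have h1 := L.card_mul_index
    rw [hLc, Pool.Agent.SNW.l0] at h1
    obtain ⟨c, hc⟩ := he
    have hc0 : 0 < c := by
      rcases Nat.eq_zero_or_pos c with h | h
      · rw [h, mul_zero] at hc
        omega
      · exact h
    rw [hc, Nat.mul_div_cancel_left _ he0, mul_comm] at h1
    exact Nat.eq_of_mul_eq_mul_right hc0 h1
  obtain ⟨H, hLH, hH⟩ := Kq_idx L hL q (by rw [hidx]; exact hq)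
  have hHt : H ≠ ⊤ := by
    rintro rfl
    rw [AddSubgroup.index_top] at hH
    omega
  obtain ⟨z, hz⟩ := Kq_sup L hL
  have hcr : crk H = 1 := by
    apply le_antisymm
    · have h1 : H ⊔ AddSubgroup.closure (({z} : Finset G) : Set G) = ⊤ := by
        rw [coe_singleton, ← AddSubgroup.zmultiples_eq_closure, eq_top_iff, ← hz]
        exact sup_le_sup_right hLH _
      have h2 := crk_le h1
      rwa [card_singleton] at h2
    · exact crk_pos hHt
  refine ⟨H, hHt, ?_, fun m => ?_⟩
  · rw [← hH, mul_comm, H.card_mul_index]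
  · rw [Pool.Agent.SNR.valr, hcr]
    norm_num
    left
    congr 1
    congr 1
    omega

end Pool.Agent.SZC
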